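import Pool.Agent.FlipB_h28.HT4

/-! # Terminal varieties and their resolutions -/

open scoped KaehlerDifferential

universe u

namespace Flip28

variable {k K : Type u} [Field k] [Field K] [Algebra k K] {n : ℕ}
  (b : Module.Basis (Fin n) K Ω[K⁄k])

/-- `X` is smooth in codimension at most `c`, and the discrepancies of the prime divisors whose
centre is a singular point of `X` are greater than `c - 2` (for `c = 2`: `X` is terminal). -/
structure Term (c : ℕ) (X : Set (Subalgebra k K)) : Prop where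
  smooth : ∀ A ∈ X, ringKrullDim A ≤ c → Algebra.FormallySmooth k A
  disc : ∀ E, IsPrimeDiv E → ∀ A ∈ X, Dom A E → ¬ Algebra.FormallySmooth k A →
    (c : ℚ) - 2 < disc b X E

/-- `Z` is a resolution of `X`. -/
structure ResSit (c : ℕ) (X Z : Set (Subalgebra k K)) : Prop where
  hc : 2 ≤ c
  cX : IsCompleteNormal X
  cZ : IsCompleteNormal Z
  sm : ∀ A ∈ Z, Algebra.FormallySmooth k A
  down : ∀ A ∈ Z, ∃ x ∈ X, Dom x A
  iso : ∀ A ∈ X, Algebra.FormallySmooth k A → A ∈ Z
  gen : ∀ A ∈ X, ∃ m : ℤ, 0 < m ∧ ∃ g, IsGen b X m A g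
  term : Term b c X

end Flip28
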