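import Pool.Agent.FlipN_h28.Def

/-! # Euler operator -/

open scoped KaehlerDifferential

universe u

namespace Flip28

variable {k K : Type u} [Field k] [Field K] [Algebra k K] [CharZero k] {n : ℕ}
  (b : Module.Basis (Fin n) K Ω[K⁄k]) {X : Set (Subalgebra k K)}

theorem NA1_theta {A : Subalgebra k K} [IsLocalRing A] {d : ℕ} {x : Fin n → K}
    (hx : IsCoord b A d x) {D : Fin n → Derivation k K K} (hD : ∀ i, ∀ f ∈ A, D i f ∈ A)
    (hDx : ∀ i j, D i (x j) = if i = j then 1 else 0) :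
    ∃ θ : A →+ A, (∀ a c, θ (a * c) = a * θ c + c * θ a) ∧
      (∀ (j : ℕ) (h : A), (∀ i : Fin n, (i : ℕ) < d →
        (⟨D i h, hD i h h.2⟩ : A) ∈ IsLocalRing.maximalIdeal A ^ j) →
          θ h ∈ IsLocalRing.maximalIdeal A ^ (j + 1)) ∧
      (∀ h ∈ IsLocalRing.maximalIdeal A, θ h - h ∈ IsLocalRing.maximalIdeal A ^ 2) := by
  have hxm : ∀ i : Fin n, (i : ℕ) < d → (⟨x i, hx.mem i⟩ : A) ∈ IsLocalRing.maximalIdeal A := by
    intro i hi
    rw [IsLocalRing.mem_maximalIdeal, mem_nonunits_iff]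
    intro hu
    apply hx.nonunit i hi
    obtain ⟨u, hu⟩ := hu
    have h1 : x i * ((u⁻¹ : Aˣ) : A) = 1 := by
      have h2 : (u : A) * ((u⁻¹ : Aˣ) : A) = 1 := u.mul_inv
      rw [hu] at h2
      exact congrArg (Subtype.val : A → K) h2
    rw [inv_eq_of_mul_eq_one_right h1]
    exact (((u⁻¹ : Aˣ) : A)).2
  let θ : A →+ A :=
    { toFun := fun h => ∑ i ∈ low n d, (⟨x i, hx.mem i⟩ : A) * ⟨D i h, hD i h h.2⟩
      map_zero' := by
        refine Finset.sum_eq_zero fun i _ => ?_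
        apply Subtype.ext
        simp
      map_add' := by
        intro a c
        rw [← Finset.sum_add_distrib]
        refine Finset.sum_congr rfl fun i _ => ?_
        apply Subtype.ext
        simp [mul_add] }
  have hθ : ∀ h : A, θ h = ∑ i ∈ low n d, (⟨x i, hx.mem i⟩ : A) * ⟨D i h, hD i h h.2⟩ :=
    fun h => rfl
  have hpow : ∀ (j : ℕ) (h : A), (∀ i : Fin n, (i : ℕ) < d →
        (⟨D i h, hD i h h.2⟩ : A) ∈ IsLocalRing.maximalIdeal A ^ j) →
          θ h ∈ IsLocalRing.maximalIdeal A ^ (j + 1) := by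
    intro j h hh
    rw [hθ]
    refine Ideal.sum_mem _ fun i hi => ?_
    rw [pow_succ']
    exact Ideal.mul_mem_mul (hxm i (mem_low.1 hi)) (hh i (mem_low.1 hi))
  have hmul : ∀ a c, θ (a * c) = a * θ c + c * θ a := by
    intro a c
    rw [hθ, hθ, hθ, Finset.mul_sum, Finset.mul_sum, ← Finset.sum_add_distrib]
    refine Finset.sum_congr rfl fun i _ => ?_
    apply Subtype.ext
    simp only [Subalgebra.coe_mul, Subalgebra.coe_add, Derivation.leibniz, smul_eq_mul]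
    ring
  refine ⟨θ, hmul, hpow, ?_⟩
  intro h hh
  by_cases h0 : h = 0
  · rw [h0, map_zero, sub_zero]
    exact Ideal.zero_mem _
  have h1 : (h : K)⁻¹ ∉ A := by
    intro hinv
    rw [IsLocalRing.mem_maximalIdeal, mem_nonunits_iff] at hh
    apply hh
    refine IsUnit.of_mul_eq_one (⟨(h : K)⁻¹, hinv⟩ : A) ?_
    apply Subtype.ext
    have h2 : (h : K) ≠ 0 := fun h3 => h0 (Subtype.ext h3)
    exact mul_inv_cancel₀ h2
  obtain ⟨a, ha, hsum⟩ := hx.gen h h.2 h1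
  have h2 : h = ∑ j ∈ low n d, (⟨a j, ha j⟩ : A) * ⟨x j, hx.mem j⟩ := by
    apply Subtype.ext
    rw [hsum]
    push_cast
    rfl
  have h3 : ∀ j : Fin n, (j : ℕ) < d → θ ⟨x j, hx.mem j⟩ = ⟨x j, hx.mem j⟩ := by
    intro j hj
    rw [hθ, Finset.sum_eq_single j]
    · apply Subtype.ext
      simp [hDx]
    · intro i _ hij
      apply Subtype.ext
      simp [hDx, hij]
    · intro hj'
      exact absurd (mem_low.2 hj) hj'
  have h4 : θ h = h + ∑ j ∈ low n d, (⟨x j, hx.mem j⟩ : A) * θ ⟨a j, ha j⟩ := by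
    conv_lhs => rw [h2]
    rw [map_sum]
    conv_rhs => rw [h2]
    rw [← Finset.sum_add_distrib]
    refine Finset.sum_congr rfl fun j hj => ?_
    rw [hmul, h3 j (mem_low.1 hj)]
  rw [h4, add_sub_cancel_left]
  refine Ideal.sum_mem _ fun j hj => ?_
  rw [pow_two]
  refine Ideal.mul_mem_mul (hxm j (mem_low.1 hj)) ?_
  have h5 := hpow 0 ⟨a j, ha j⟩ (fun i _ => by rw [pow_zero, Ideal.one_eq_top]; trivial)
  rwa [zero_add, pow_one] at h5

theorem NA1_pow {A : Type*} [CommRing A] (I : Ideal A) (θ : A →+ A)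
    (hm : ∀ a c, θ (a * c) = a * θ c + c * θ a) (h1 : ∀ h ∈ I, θ h - h ∈ I ^ 2) (j : ℕ) :
    ∀ h ∈ I ^ (j + 1), θ h - (j + 1 : ℕ) * h ∈ I ^ (j + 2) := by
  induction j with
  | zero =>
    intro h hh
    rw [zero_add, pow_one] at hh
    have := h1 h hh
    simpa using this
  | succ j ih =>
    intro h hh
    rw [pow_succ] at hh
    refine Submodule.mul_induction_on hh ?_ ?_
    · intro a ha c hc
      have e : θ (a * c) - (j + 1 + 1 : ℕ) * (a * c) =
          a * (θ c - c) + c * (θ a - (j + 1 : ℕ) * a) := by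
        rw [hm]
        push_cast
        ring
      rw [e]
      refine Ideal.add_mem _ ?_ ?_
      · have := Ideal.mul_mem_mul ha (h1 c hc)
        rw [← pow_add] at this
        exact this
      · have := Ideal.mul_mem_mul hc (ih a ha)
        rw [← pow_succ'] at this
        exact this
    · intro a c ha hc
      have e : θ (a + c) - (j + 1 + 1 : ℕ) * (a + c) =
          (θ a - (j + 1 + 1 : ℕ) * a) + (θ c - (j + 1 + 1 : ℕ) * c) := by
        rw [map_add]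
        ring
      rw [e]
      exact Ideal.add_mem _ ha hc

/-- Euler's operator.  `A` is a local ring with maximal ideal `𝔪` generated by `x_i`, `i < d`; the
derivations `D_i` preserve `A`, `D_i x_j = δ_ij`.  If `h ∈ 𝔪 ^ j` and `D_i h ∈ 𝔪 ^ j` for all
`i < d`, `j ≥ 1`, then `h ∈ 𝔪 ^ (j + 1)`.

Proof: let `θ = ∑_{i < d} x_i D_i`.  By induction on `j` (`𝔪 ^ (j + 1) = 𝔪 * 𝔪 ^ j`,
`Submodule.mul_induction_on`) one has `θ h - j h ∈ 𝔪 ^ (j + 1)` for all `h ∈ 𝔪 ^ j`: for `j = 1`,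
`h = ∑ a_i x_i`, `θ h = h + ∑ x_i θ a_i` and `θ a_i ∈ 𝔪`; `θ (a c) = a θ c + c θ a`.  Now
`θ h = ∑ x_i D_i h ∈ 𝔪 ^ (j + 1)`, so `j h ∈ 𝔪 ^ (j + 1)`, and `j` is invertible in `k`. -/
theorem euler_pow {A : Subalgebra k K} [IsLocalRing A] {d : ℕ} {x : Fin n → K}
    (hx : IsCoord b A d x) {D : Fin n → Derivation k K K} (hD : ∀ i, ∀ f ∈ A, D i f ∈ A)
    (hDx : ∀ i j, D i (x j) = if i = j then 1 else 0) {j : ℕ} (hj : 1 ≤ j) {h : A}
    (hh : h ∈ IsLocalRing.maximalIdeal A ^ j)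
    (hDh : ∀ i : Fin n, (i : ℕ) < d →
      (⟨D i h, hD i h h.2⟩ : A) ∈ IsLocalRing.maximalIdeal A ^ j) :
    h ∈ IsLocalRing.maximalIdeal A ^ (j + 1) := by
  obtain ⟨θ, hmul, hpow, h1⟩ := NA1_theta b hx hD hDx
  obtain ⟨m, rfl⟩ : ∃ m, j = m + 1 := ⟨j - 1, by omega⟩
  have e1 := NA1_pow (IsLocalRing.maximalIdeal A) θ hmul h1 m h hh
  have e2 := hpow (m + 1) h hDh
  have e3 : ((m + 1 : ℕ) : A) * h ∈ IsLocalRing.maximalIdeal A ^ (m + 2) := by
    have := Ideal.sub_mem _ e2 e1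
    rwa [sub_sub_cancel] at this
  have e4 : (algebraMap k A ((m + 1 : ℕ) : k)⁻¹) * (((m + 1 : ℕ) : A) * h) = h := by
    rw [← mul_assoc, ← map_natCast (algebraMap k A) (m + 1), ← map_mul,
      inv_mul_cancel₀ (Nat.cast_ne_zero.2 (Nat.succ_ne_zero m)), map_one, one_mul]
  rw [← e4]
  exact Ideal.mul_mem_left _ _ e3

end Flip28
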