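import Pool.Agent.FlipN_h28.NA1

/-! # Semicontinuity of the order of a function at smooth points -/

open scoped KaehlerDifferential

universe u

namespace Flip28

variable {k K : Type u} [Field k] [Field K] [Algebra k K] [CharZero k] {n : ℕ}
  (b : Module.Basis (Fin n) K Ω[K⁄k]) {X : Set (Subalgebra k K)}

omit [CharZero k] in
/-- a derivation preserves the localizations -/
theorem NA2_loc {A P : Subalgebra k K} (hl : IsLoc A P) (D : Derivation k K K)
    (hD : ∀ f ∈ A, D f ∈ A) : ∀ f ∈ P, D f ∈ P := by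
  intro f hf
  obtain ⟨r, hr, s, hs, hsP, rfl⟩ := hl.2.2 f hf
  rw [Derivation.leibniz, Derivation.leibniz_inv, smul_eq_mul, smul_eq_mul, smul_eq_mul]
  refine P.add_mem (P.mul_mem (hl.1 hr) ?_) (P.mul_mem hsP (hl.1 (hD r hr)))
  rw [neg_mul]
  exact P.neg_mem (P.mul_mem (P.pow_mem hsP 2) (hl.1 (hD s hs)))

omit [CharZero k] in
/-- a derivation lowers the order by at most one -/
theorem NA2_ord {P : Subalgebra k K} (hP : IsDVR P) (D : Derivation k K K)
    (hD : ∀ f ∈ P, D f ∈ P) {h : K} (h0 : h ≠ 0) (hD0 : D h ≠ 0) {p : ℕ}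
    (hp : ((p + 1 : ℕ) : ℤ) ≤ ord P h) : (p : ℤ) ≤ ord P (D h) := by
  obtain ⟨t, ht, ht1⟩ := Ord_exists_one hP
  set u : K := h * (t⁻¹) ^ (p + 1) with hu
  have hu0 : u ≠ 0 := mul_ne_zero h0 (pow_ne_zero _ (inv_ne_zero ht))
  have huP : u ∈ P := by
    rw [mem_iff hP hu0, hu, ord_mul hP h0 (pow_ne_zero _ (inv_ne_zero ht)),
      ord_pow hP (inv_ne_zero ht), ord_inv hP, ht1]
    linarith
  have htP : t ∈ P := by
    rw [mem_iff hP ht, ht1]
    exact zero_le_one
  have hh : h = t ^ (p + 1) * u := by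
    rw [hu, inv_pow]
    field_simp
  have hDh : D h = t ^ p * (t * D u + ((p + 1 : ℕ) : K) * u * D t) := by
    rw [hh, Derivation.leibniz, Derivation.leibniz_pow, smul_eq_mul, smul_eq_mul, smul_eq_mul,
      nsmul_eq_mul, Nat.add_sub_cancel]
    ring
  set w : K := t * D u + ((p + 1 : ℕ) : K) * u * D t with hw
  have hwP : w ∈ P := by
    refine P.add_mem (P.mul_mem htP (hD u huP)) (P.mul_mem (P.mul_mem ?_ huP) (hD t htP))
    exact natCast_mem P (p + 1)
  have hw0 : w ≠ 0 := by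
    intro h1
    rw [h1, mul_zero] at hDh
    exact hD0 hDh
  rw [hDh, ord_mul hP (pow_ne_zero _ ht) hw0, ord_pow hP ht, ht1]
  have := (mem_iff hP hw0).1 hwP
  linarith

/-- the elements of order at least `j` -/
def NA2_I {A E : Subalgebra k K} (hAE : A ≤ E) (t : K) (j : ℕ) : Ideal A where
  carrier := {a | (a : K) * t ^ j ∈ E}
  add_mem' := by
    intro a c ha hc
    show ((a + c : A) : K) * t ^ j ∈ E
    rw [Subalgebra.coe_add, add_mul]
    exact E.add_mem ha hc
  zero_mem' := by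
    show ((0 : A) : K) * t ^ j ∈ E
    rw [Subalgebra.coe_zero, zero_mul]
    exact E.zero_mem
  smul_mem' := by
    intro c a ha
    show ((c • a : A) : K) * t ^ j ∈ E
    rw [smul_eq_mul, Subalgebra.coe_mul, mul_assoc]
    exact E.mul_mem (hAE c.2) ha

omit [CharZero k] in
theorem NA2_pow {A E : Subalgebra k K} [IsLocalRing A] (hE : IsDVR E) (hd : Dom A E) {t : K}
    (ht : t ≠ 0) (ht1 : ord E t = 1) (j : ℕ) :
    IsLocalRing.maximalIdeal A ^ j ≤ NA2_I hd.1 t⁻¹ j := by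
  induction j with
  | zero =>
    intro a _
    show (a : K) * t⁻¹ ^ 0 ∈ E
    rw [pow_zero, mul_one]
    exact hd.1 a.2
  | succ j ih =>
    rw [pow_succ, Ideal.mul_le]
    intro r hr s hs
    have h1 : (r : K) * t⁻¹ ^ j ∈ E := ih hr
    have h2 : (s : K) * t⁻¹ ∈ E := by
      by_cases hs0 : (s : K) = 0
      · rw [hs0, zero_mul]
        exact E.zero_mem
      · have h3 : (s : K)⁻¹ ∉ E := by
          intro h4
          have h5 := hd.2 s s.2 h4
          rw [IsLocalRing.mem_maximalIdeal, mem_nonunits_iff, LocAlg_unit] at hs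
          exact hs ⟨hs0, h5⟩
        have h4 := (ord_pos_iff hE hs0).2 h3
        rw [mem_iff hE (mul_ne_zero hs0 (inv_ne_zero ht)), ord_mul hE hs0 (inv_ne_zero ht),
          ord_inv hE, ht1]
        linarith
    show ((r * s : A) : K) * t⁻¹ ^ (j + 1) ∈ E
    have h3 : ((r * s : A) : K) * t⁻¹ ^ (j + 1) = ((r : K) * t⁻¹ ^ j) * ((s : K) * t⁻¹) := by
      rw [Subalgebra.coe_mul, pow_succ]
      ring
    rw [h3]
    exact E.mul_mem h1 h2

/-- Proof: by induction on `j`: if `ord_P h ≥ j` then `h ∈ 𝔪 ^ j`, `𝔪` the maximal ideal of `A`.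
`j = 0` is clear; for `j = 1`, `h` is not a unit of `A` since it is not a unit of `P ⊇ A`.
`j + 1 ≥ 2`: the dual derivations `D_i` of `hx.exists_deriv` preserve `A`, hence the localization
`P` of `A` (`hX.isLoc_of_le`), so `ord_P (D_i h) ≥ ord_P h - 1 ≥ j` if `D_i h ≠ 0`
(`h = t ^ p * u`, `t` a uniformizer), so `h, D_i h ∈ 𝔪 ^ j` by induction; use `euler_pow`.
Finally `ord_E ≥ j` on `𝔪 ^ j` because `ord_E ≥ 1` on `𝔪` (`E` dominates `A`). -/
theorem IsCoord.ord_le_ord (hX : IsCompleteNormal X) {A E P : Subalgebra k K} (hA : A ∈ X)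
    {d : ℕ} {x : Fin n → K} (hx : IsCoord b A d x) (hE : IsPrimeDiv E) (hd : Dom A E)
    (hP : P ∈ X) (hPd : IsDVR P) (hAP : A ≤ P) {h : K} (hh : h ∈ A) (h0 : h ≠ 0) :
    ord P h ≤ ord E h := by
  have : IsLocalRing A := hX.isLocalRing hA
  obtain ⟨D, hD, hDx⟩ := hx.exists_deriv b
  have hl := hX.isLoc_of_le hA hP hAP
  have hDP : ∀ i, ∀ f ∈ P, D i f ∈ P := fun i => NA2_loc hl (D i) (hD i)
  have key : ∀ j : ℕ, ∀ g : A, (g : K) ≠ 0 → (j : ℤ) ≤ ord P (g : K) →
      g ∈ IsLocalRing.maximalIdeal A ^ j := by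
    intro j
    induction j with
    | zero =>
      intro g _ _
      rw [pow_zero, Ideal.one_eq_top]
      exact Submodule.mem_top
    | succ j ih =>
      intro g hg hj
      rcases Nat.eq_zero_or_pos j with rfl | hj0
      · rw [zero_add, pow_one, IsLocalRing.mem_maximalIdeal, mem_nonunits_iff, LocAlg_unit]
        rintro ⟨_, h1⟩
        have h2 : ord P (g : K) = 0 := (ord_eq_zero_iff hPd hg).2 ⟨hAP g.2, hAP h1⟩
        rw [h2] at hj
        norm_num at hj
      · have h1 : (j : ℤ) ≤ ord P (g : K) := by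
          push_cast at hj
          linarith
        refine euler_pow b hx hD hDx hj0 (ih g hg h1) fun i _ => ?_
        by_cases hDg : D i (g : K) = 0
        · have h2 : (⟨D i g, hD i g g.2⟩ : A) = 0 := Subtype.ext hDg
          rw [h2]
          exact Ideal.zero_mem _
        · exact ih _ hDg (NA2_ord hPd (D i) (hDP i) hg hDg hj)
  obtain ⟨t, ht, ht1⟩ := Ord_exists_one hE.1
  have hP0 : 0 ≤ ord P h := (mem_iff hPd h0).1 (hAP hh)
  obtain ⟨j, hj⟩ := Int.eq_ofNat_of_zero_le hP0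
  have h1 : h * t⁻¹ ^ j ∈ E := NA2_pow hE.1 hd ht ht1 j (key j ⟨h, hh⟩ h0 hj.ge)
  have h2 := (mem_iff hE.1 (mul_ne_zero h0 (pow_ne_zero j (inv_ne_zero ht)))).1 h1
  rw [ord_mul hE.1 h0 (pow_ne_zero j (inv_ne_zero ht)), ord_pow hE.1 (inv_ne_zero ht),
    ord_inv hE.1, ht1] at h2
  rw [hj]
  linarith

end Flip28
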