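import Pool.Agent.FlipN_h28.Def

/-! # Orders of pluricanonical forms over smooth points -/

open scoped KaehlerDifferential

universe u

namespace Flip28

variable {k K : Type u} [Field k] [Field K] [Algebra k K] [CharZero k] {n : ℕ}
  (b : Module.Basis (Fin n) K Ω[K⁄k]) {Z : Set (Subalgebra k K)}

/-- Proof: `disc_eq` and the definition of `kord`; `ord_mul`, `ord_zpow`. -/
theorem IsCoord.kord_eq (hZ : IsCompleteNormal Z) {C E : Subalgebra k K} (hC : C ∈ Z) {d : ℕ}
    {x : Fin n → K} (hx : IsCoord b C d x) (hE : IsPrimeDiv E) (hd : Dom C E) (m : ℤ) {g : K}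
    (hg : g ≠ 0) :
    (kord b m E g : ℚ) = ord E (g * (jac b x) ^ (-m)) + m * disc b Z E := by
  rw [Flip28.disc_eq b hZ hE hC hd one_pos (hx.isGen b hZ hC),
    ord_mul hE.1 hg (zpow_ne_zero _ hx.ne), ord_zpow hE.1 hx.ne]
  unfold kord
  push_cast
  ring

/-- Proof: `hx.isGen` says that `kord 1 P (jac x) = 0`, i.e. `cord P = - ord_P (jac x)`. -/
theorem IsCoord.kord_eq_ord (hZ : IsCompleteNormal Z) {C P : Subalgebra k K} (hC : C ∈ Z)
    {d : ℕ} {x : Fin n → K} (hx : IsCoord b C d x) (hP : P ∈ Z) (hPd : IsDVR P) (hCP : C ≤ P)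
    (m : ℤ) {g : K} (hg : g ≠ 0) : kord b m P g = ord P (g * (jac b x) ^ (-m)) := by
  have h1 := (hx.isGen b hZ hC).2 P hP hPd hCP
  rw [ord_mul hPd hg (zpow_ne_zero _ hx.ne), ord_zpow hPd hx.ne]
  unfold kord at h1 ⊢
  linear_combination m * h1

end Flip28
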