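import Pool.Agent.FlipN_h28.NA2
import Pool.Agent.FlipN_h28.NB1

/-! # Pluricanonical forms without poles -/

open scoped KaehlerDifferential

universe u

namespace Flip28

variable {k K : Type u} [Field k] [Field K] [Algebra k K] [CharZero k]
  [Algebra.EssFiniteType k K] {n : ℕ} (b : Module.Basis (Fin n) K Ω[K⁄k])
  {Z : Set (Subalgebra k K)}

theorem NB2_coord (hZ : IsCompleteNormal Z) {C : Subalgebra k K} (hC : C ∈ Z)
    (hs : Algebra.FormallySmooth k C) : ∃ (d : ℕ) (x : Fin n → K), IsCoord b C d x := by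
  obtain ⟨R, hR, hK, hRC, -⟩ := hZ.exists_chart hC
  exact exists_coord b hR hK hRC hs

theorem NB2_mem (hZ : IsCompleteNormal Z) {C : Subalgebra k K} (hC : C ∈ Z) {d : ℕ}
    {x : Fin n → K} (hx : IsCoord b C d x) {m : ℤ} {g : K}
    (hg : g ≠ 0) (hreg : ∀ Q ∈ Z, IsDVR Q → C ≤ Q → 0 ≤ kord b m Q g) :
    g * (jac b x) ^ (-m) ∈ C := by
  refine hZ.mem_of_ord hC (mul_ne_zero hg (zpow_ne_zero _ hx.ne)) fun P hP hd hCP => ?_
  rw [← hx.kord_eq_ord b hZ hC hP hd hCP m hg]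
  exact hreg P hP hd hCP

/-- A rational `m`-canonical form without poles at the smooth point `C`.
Proof: `exists_coord`; `h = g * (jac x) ^ (-m) ∈ C` by `mem_of_ord` and `kord_eq_ord`; so
`ord_E h ≥ 0` (`C ≤ E`); `kord_eq`. -/
theorem kord_ge (hZ : IsCompleteNormal Z) {C E : Subalgebra k K} (hC : C ∈ Z)
    (hs : Algebra.FormallySmooth k C) (hE : IsPrimeDiv E) (hd : Dom C E) {m : ℤ} {g : K}
    (hg : g ≠ 0) (hreg : ∀ Q ∈ Z, IsDVR Q → C ≤ Q → 0 ≤ kord b m Q g) :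
    (m : ℚ) * disc b Z E ≤ kord b m E g := by
  obtain ⟨d, x, hx⟩ := NB2_coord b hZ hC hs
  have h0 : g * (jac b x) ^ (-m) ≠ 0 := mul_ne_zero hg (zpow_ne_zero _ hx.ne)
  have h1 := NB2_mem b hZ hC hx hg hreg
  have h2 := (mem_iff hE.1 h0).1 (hd.1 h1)
  rw [hx.kord_eq b hZ hC hE hd m hg]
  have h3 : (0 : ℚ) ≤ (ord E (g * (jac b x) ^ (-m)) : ℚ) := by exact_mod_cast h2
  linarith

/-- Proof: as before with `ord_P h ≤ ord_E h` (`IsCoord.ord_le_ord`). -/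
theorem kord_ge_add (hZ : IsCompleteNormal Z) {C E P : Subalgebra k K} (hC : C ∈ Z)
    (hs : Algebra.FormallySmooth k C) (hE : IsPrimeDiv E) (hd : Dom C E) {m : ℤ} {g : K}
    (hg : g ≠ 0) (hreg : ∀ Q ∈ Z, IsDVR Q → C ≤ Q → 0 ≤ kord b m Q g) (hP : P ∈ Z)
    (hPd : IsDVR P) (hCP : C ≤ P) :
    (m : ℚ) * disc b Z E + kord b m P g ≤ kord b m E g := by
  obtain ⟨d, x, hx⟩ := NB2_coord b hZ hC hs
  have h0 : g * (jac b x) ^ (-m) ≠ 0 := mul_ne_zero hg (zpow_ne_zero _ hx.ne)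
  have h1 := NB2_mem b hZ hC hx hg hreg
  have h2 := hx.ord_le_ord b hZ hC hE hd hP hPd hCP h1 h0
  rw [hx.kord_eq b hZ hC hE hd m hg, hx.kord_eq_ord b hZ hC hP hPd hCP m hg]
  have h3 : (ord P (g * (jac b x) ^ (-m)) : ℚ) ≤ (ord E (g * (jac b x) ^ (-m)) : ℚ) := by
    exact_mod_cast h2
  linarith

/-- Proof: if `kord m Q g = 0` for all `Q` then `h = g * (jac x) ^ (-m)` is a unit of `C`
(`mem_of_ord` for `h` and `h⁻¹`), so `ord_E h = 0`; `kord_eq`. -/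
theorem kord_eq_of_isGen (hZ : IsCompleteNormal Z) {C E : Subalgebra k K} (hC : C ∈ Z)
    (hs : Algebra.FormallySmooth k C) (hE : IsPrimeDiv E) (hd : Dom C E) {m : ℤ} {g : K}
    (hg : IsGen b Z m C g) : (kord b m E g : ℚ) = m * disc b Z E := by
  obtain ⟨d, x, hx⟩ := NB2_coord b hZ hC hs
  have h0 : g * (jac b x) ^ (-m) ≠ 0 := mul_ne_zero hg.1 (zpow_ne_zero _ hx.ne)
  have h1 := NB2_mem b hZ hC hx hg.1 fun Q hQ hd hCQ => (hg.2 Q hQ hd hCQ).ge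
  have h2 : (g * (jac b x) ^ (-m))⁻¹ ∈ C := by
    refine hZ.mem_of_ord hC (inv_ne_zero h0) fun P hP hPd hCP => ?_
    rw [ord_inv hPd, ← hx.kord_eq_ord b hZ hC hP hPd hCP m hg.1, hg.2 P hP hPd hCP, neg_zero]
  have h3 := (ord_eq_zero_iff hE.1 h0).2 ⟨hd.1 h1, hd.1 h2⟩
  rw [hx.kord_eq b hZ hC hE hd m hg.1, h3]
  simp

/-- discrepancies over the points of `Z` smooth are integers. Proof: `IsCoord.disc_eq`. -/
theorem disc_lt_two (hZ : IsCompleteNormal Z) {C E : Subalgebra k K} (hC : C ∈ Z)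
    (hs : Algebra.FormallySmooth k C) (hE : IsPrimeDiv E) (hd : Dom C E)
    (h2 : ringKrullDim C = 2) (hlt : disc b Z E < 2) : disc b Z E = 1 := by
  obtain ⟨d, x, hx⟩ := NB2_coord b hZ hC hs
  have h3 := hx.dim
  rw [h2] at h3
  have h4 : d = 2 := by
    have h5 : ((2 : ℕ) : WithBot ℕ∞) = (d : ℕ) := h3
    have h6 : (2 : ℕ) = d := by exact_mod_cast h5
    exact h6.symm
  have h7 := hx.disc_ge_dim b hZ hC hE hd
  rw [hx.disc_eq b hZ hC hE hd] at h7 hlt ⊢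
  rw [h4] at h7
  have h8 : (1 : ℤ) ≤ ord E (jac b x) + cord b E := by
    have h9 : ((1 : ℤ) : ℚ) ≤ ((ord E (jac b x) + cord b E : ℤ) : ℚ) := by
      refine le_trans ?_ h7
      norm_num
    exact_mod_cast h9
  have h9 : ord E (jac b x) + cord b E < (2 : ℤ) := by exact_mod_cast hlt
  have h10 : ord E (jac b x) + cord b E = 1 := by omega
  rw [h10]
  simp

end Flip28
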