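import Pool.Agent.FlipN_h28.Def

/-! # General points of codimension one of a prime divisor -/

open scoped KaehlerDifferential

universe u

namespace Flip28

variable {k K : Type u} [Field k] [Field K] [Algebra k K] {n : ℕ}
  (b : Module.Basis (Fin n) K Ω[K⁄k]) {Z : Set (Subalgebra k K)}

theorem NC1_two {x : WithBot ℕ∞} (h : (1 : WithBot ℕ∞) < x) :
    ((2 : ℕ) : WithBot ℕ∞) ≤ x := by
  induction x using WithBot.recBotCoe with
  | bot => exact absurd h (not_lt_bot)
  | coe y =>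
    have h1 : (1 : ℕ∞) < y := by exact_mod_cast h
    have h2 : (1 : ℕ∞) + 1 ≤ y := Order.add_one_le_of_lt h1
    have h3 : ((2 : ℕ) : ℕ∞) ≤ y := by
      have e : ((2 : ℕ) : ℕ∞) = 1 + 1 := by norm_num
      rw [e]
      exact h2
    exact WithBot.coe_le_coe.2 h3

/-- Proof: `{A | f ∈ A} ∪ {A | ¬ A ≤ P}` is open (`Opn.union`, `opn_not_le`; if `f ∈ A`,
`f = r * s⁻¹`, then `f ∈ B` whenever `s⁻¹ ∈ B`).  The points outside this open set have
dimension `≥ 2`: they are `≤ P` and different from `P` and `⊤` since `f ∈ P`; use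
`finite_of_opn`. -/
theorem finite_not_mem (hZ : IsCompleteNormal Z) {P : Subalgebra k K} (hP : P ∈ Z)
    (hPd : IsDVR P) {f : K} (hf : f ∈ P) :
    {C | C ∈ Z ∧ C ≤ P ∧ ringKrullDim C = ((2 : ℕ) : WithBot ℕ∞) ∧ f ∉ C}.Finite := by
  have hU : Opn Z ({A | f ∈ A} ∪ {A | ¬ A ≤ P}) := by
    refine Opn.union ?_ (opn_not_le P)
    intro R hR hK hRX A hA hfA
    obtain ⟨r, hr, s, hs, hsA, e⟩ := hA.2.2 f hfA
    by_cases hs0 : s = 0
    · refine ⟨1, R.one_mem, one_ne_zero, by rw [inv_one]; exact A.one_mem, fun B hB _ => ?_⟩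
      show f ∈ B
      rw [e, hs0, inv_zero, mul_zero]
      exact B.zero_mem
    · refine ⟨s, hs, hs0, hsA, fun B hB hsB => ?_⟩
      show f ∈ B
      rw [e]
      exact B.mul_mem (hB.1 hr) hsB
  refine (finite_of_opn hZ hU (e := 2) fun A hA hAU => ?_).subset ?_
  · have h1 : f ∉ A := fun h => hAU (Or.inl h)
    have h2 : A ≤ P := by
      by_contra h
      exact hAU (Or.inr h)
    have h3 : A ≠ P := by
      rintro rfl
      exact h1 hf
    have h4 := dim_lt_of_le_ne hZ hA hP h2 h3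
    rw [(hZ.isDVR_iff hP).1 hPd] at h4
    exact NC1_two h4
  · rintro C ⟨h1, h2, h3, h4⟩
    refine ⟨h1, ?_, h3⟩
    rintro (h | h)
    · exact h4 h
    · exact h h2

/-- Coordinates at the smooth point `P` of codimension one are coordinates nearby.
Proof: let `R` be a chart with `IsLoc R P` all of whose localizations are in `Z`, generated by
the finite set `G`, and `y` coordinates at `P` (`exists_coord`; `d = 1` by `dim`).  `T` consists of
`G`, the `y i` and the coefficients `a i ∈ P` of `dr = ∑ a i • dy_i`, `r ∈ G`.  If `T ⊆ C` then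
`R ≤ C`, and `C` is a localization of `R`: `C` dominates a localization `A` of `R` (`exists_cen`),
`A ∈ Z`, and `A = C` by `hZ.unique`.  Conclude by `coeff_of_isLoc`. -/
theorem exists_spread [CharZero k] [Algebra.EssFiniteType k K] (hZ : IsCompleteNormal Z)
    {P : Subalgebra k K} (hP : P ∈ Z) (hPd : IsDVR P) (hs : Algebra.FormallySmooth k P) :
    ∃ (y : Fin n → K) (T : Set K), IsCoord b P 1 y ∧ T.Finite ∧ (∀ f ∈ T, f ∈ P) ∧
      ∀ C ∈ Z, C ≤ P → (∀ f ∈ T, f ∈ C) → (∀ i, y i ∈ C) ∧ ∀ f ∈ C, ∃ a : Fin n → K,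
        (∀ i, a i ∈ C) ∧ KaehlerDifferential.D k K f =
          ∑ i, a i • KaehlerDifferential.D k K (y i) := by
  obtain ⟨R, hR, hK, hRP, hRZ⟩ := hZ.exists_chart hP
  obtain ⟨d, y, hy⟩ := exists_coord b hR hK hRP hs
  have hd : d = 1 := by
    have h1 := hy.dim
    rw [(hZ.isDVR_iff hP).1 hPd] at h1
    have h2 : ((1 : ℕ) : WithBot ℕ∞) = (d : WithBot ℕ∞) := by rw [← h1]; rfl
    exact_mod_cast h2.symm
  subst hd
  obtain ⟨G, hG⟩ := hR
  have hGP : ∀ r ∈ (G : Set K), r ∈ P := fun r hr => hRP.1 (by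
    rw [← hG]
    exact Algebra.subset_adjoin hr)
  have hc : ∀ r : K, ∃ a : Fin n → K, r ∈ (G : Set K) → (∀ i, a i ∈ P) ∧
      KaehlerDifferential.D k K r = ∑ i, a i • KaehlerDifferential.D k K (y i) := by
    intro r
    by_cases hr : r ∈ (G : Set K)
    · obtain ⟨a, ha⟩ := hy.span r (hGP r hr)
      exact ⟨a, fun _ => ha⟩
    · exact ⟨0, fun h => absurd h hr⟩
  choose a ha using hc
  refine ⟨y, (G : Set K) ∪ Set.range y ∪ ⋃ r ∈ (G : Set K), Set.range (a r), hy, ?_, ?_, ?_⟩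
  · refine (G.finite_toSet.union (Set.finite_range y)).union ?_
    exact G.finite_toSet.biUnion fun r _ => Set.finite_range (a r)
  · rintro f ((hf | ⟨i, rfl⟩) | hf)
    · exact hGP f hf
    · exact hy.mem i
    · simp only [Set.mem_iUnion] at hf
      obtain ⟨r, hr, i, rfl⟩ := hf
      exact (ha r hr).1 i
  · intro C hC hCP hT
    have hTG : ∀ r ∈ (G : Set K), r ∈ C := fun r hr => hT r (Or.inl (Or.inl hr))
    have hyC : ∀ i, y i ∈ C := fun i => hT _ (Or.inl (Or.inr ⟨i, rfl⟩))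
    have haC : ∀ r ∈ (G : Set K), ∀ i, a r i ∈ C := fun r hr i => hT _ (Or.inr (by
      simp only [Set.mem_iUnion]
      exact ⟨r, hr, i, rfl⟩))
    have hRC : R ≤ C := by
      rw [← hG, Algebra.adjoin_le_iff]
      exact hTG
    obtain ⟨A, hRA, hAC⟩ := exists_cen R C hRC (hZ.isLocalRing hC)
    have hAC' : A = C := hZ.unique (hRZ A hRA) hC (hZ.isLocalRing hC) hAC (Dom.refl C)
    rw [hAC'] at hRA
    refine ⟨hyC, coeff_of_isLoc hRA (G : Set K) hG.symm y fun r hr => ?_⟩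
    exact ⟨a r, haC r hr, (ha r hr).2⟩

end Flip28
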