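import Pool.Agent.FlipN_h28.Def

/-! # Coordinates and the blow up of a point of dimension two -/

open scoped KaehlerDifferential

universe u

namespace Flip28

variable {k K : Type u} [Field k] [Field K] [Algebra k K] {n : ℕ}
  (b : Module.Basis (Fin n) K Ω[K⁄k]) {Z : Set (Subalgebra k K)}

theorem NC2_mem_maximal {C : Subalgebra k K} [IsLocalRing C] {a : K} (ha : a ∈ C)
    (h : a = 0 ∨ a⁻¹ ∉ C) : (⟨a, ha⟩ : C) ∈ IsLocalRing.maximalIdeal C := by
  rw [IsLocalRing.mem_maximalIdeal, mem_nonunits_iff]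
  intro hu
  obtain ⟨c, hc⟩ := hu.exists_right_inv
  have h1 : a * (c : K) = 1 := congrArg (fun z : C => (z : K)) hc
  rcases h with h | h
  · rw [h, zero_mul] at h1
    exact zero_ne_one h1
  · apply h
    rw [inv_eq_of_mul_eq_one_right h1]
    exact c.2

/-- the differential of `a₀ x₀ + a₁ x₁` cannot be part of a basis if `a₀, a₁, x₀, x₁` are
nonunits -/
theorem NC2_unit {C : Subalgebra k K} [IsLocalRing C] {y : Fin n → K} (hj : jac b y ≠ 0)
    (hspan : ∀ f ∈ C, ∃ a : Fin n → K, (∀ i, a i ∈ C) ∧ KaehlerDifferential.D k K f =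
      ∑ i, a i • KaehlerDifferential.D k K (y i)) {i0 : Fin n} {a0 a1 x0 x1 : K}
    (ha0 : a0 ∈ C) (ha1 : a1 ∈ C) (hx0 : x0 ∈ C) (hx1 : x1 ∈ C) (ux0 : x0⁻¹ ∉ C) (ux1 : x1⁻¹ ∉ C)
    (h : y i0 = a0 * x0 + a1 * x1) : (a0 ≠ 0 ∧ a0⁻¹ ∈ C) ∨ (a1 ≠ 0 ∧ a1⁻¹ ∈ C) := by
  classical
  by_contra hcon
  rw [not_or, not_and_or, not_and_or, not_not, not_not] at hcon
  obtain ⟨p, hp, ep⟩ := hspan a0 ha0
  obtain ⟨q, hq, eq⟩ := hspan x0 hx0
  obtain ⟨r, hr, er⟩ := hspan a1 ha1
  obtain ⟨s, hs, es⟩ := hspan x1 hx1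
  obtain ⟨c, -, hc⟩ := exists_coeff b hj (y i0)
  have h1 := hc (fun i => a0 * q i + x0 * p i + (a1 * s i + x1 * r i)) (by
    show KaehlerDifferential.D k K (y i0) = _
    rw [h, map_add, Derivation.leibniz, Derivation.leibniz, ep, eq, er, es]
    simp only [add_smul, Finset.sum_add_distrib, Finset.smul_sum, smul_smul])
  have h2 := hc (fun i => if i = i0 then 1 else 0) (by
    show KaehlerDifferential.D k K (y i0) = _
    simp only [ite_smul, one_smul, zero_smul, Finset.sum_ite_eq', Finset.mem_univ, if_true])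
  have h3 : a0 * q i0 + x0 * p i0 + (a1 * s i0 + x1 * r i0) = 1 := by
    have h4 := congrFun (h1.trans h2.symm) i0
    simpa using h4
  have m0 := NC2_mem_maximal ha0 hcon.1
  have m1 := NC2_mem_maximal ha1 hcon.2
  have m2 := NC2_mem_maximal hx0 (Or.inr ux0)
  have m3 := NC2_mem_maximal hx1 (Or.inr ux1)
  have m4 := Ideal.add_mem _ (Ideal.add_mem _ (Ideal.mul_mem_right ⟨q i0, hq i0⟩ _ m0)
    (Ideal.mul_mem_right ⟨p i0, hp i0⟩ _ m2)) (Ideal.add_mem _
    (Ideal.mul_mem_right ⟨s i0, hs i0⟩ _ m1) (Ideal.mul_mem_right ⟨r i0, hr i0⟩ _ m3))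
  apply (Ideal.ne_top_iff_one _).1 (IsLocalRing.maximalIdeal.isMaximal C).ne_top
  convert m4
  apply Subtype.ext
  exact h3.symm

/-- Let `C` be a smooth point of dimension two, `y` functions whose differentials form a basis of
the differentials of `C`, `y_{i0}` not a unit of `C` and `a(E, Z) < 2` for the prime divisor `E`
over `C`.  Then `ord_E y_{i0} = 1`.

Proof: let `x` be coordinates at `C` (`exists_coord`, `d = 2`), `x₀, x₁` the first two,
`z = x₁ / x₀`.  `t = y_{i0} = a₀ x₀ + a₁ x₁` with `a_i ∈ C` (`hx.gen`).  If `a₀` and `a₁` are not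
units of `C`, then `dt = ∑ (a_i dx_i + x_i da_i)` has all its coefficients with respect to
`dy_1, ..., dy_n` in the maximal ideal of `C`, contrary to `dt = dy_{i0}` (uniqueness of the
coefficients: `exists_coeff` as `jac b y ≠ 0`).  So one of them is a unit and `a₀ + a₁ z` is a
unit of `E` by `IsCoord.unit_of_coeff` (`G = a₀ + a₁ X₁`), and `ord_E x₀ = 1`
(`IsCoord.ord_eq_one`), `t = x₀ (a₀ + a₁ z)`. -/
theorem ord_coord_eq_one [CharZero k] [Algebra.EssFiniteType k K] (hZ : IsCompleteNormal Z)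
    {C E : Subalgebra k K} (hC : C ∈ Z) (hs : Algebra.FormallySmooth k C)
    (h2 : ringKrullDim C = ((2 : ℕ) : WithBot ℕ∞)) (hE : IsPrimeDiv E) (hd : Dom C E)
    (hlt : disc b Z E < 2) {y : Fin n → K} (hy : ∀ i, y i ∈ C) (hj : jac b y ≠ 0)
    (hspan : ∀ f ∈ C, ∃ a : Fin n → K, (∀ i, a i ∈ C) ∧ KaehlerDifferential.D k K f =
      ∑ i, a i • KaehlerDifferential.D k K (y i)) {i0 : Fin n} (hi0 : (y i0)⁻¹ ∉ C) :
    ord E (y i0) = 1 := by
  classical
  have iC : IsLocalRing C := hZ.isLocalRing hC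
  obtain ⟨R, hR, hRK, hRC, -⟩ := hZ.exists_chart hC
  obtain ⟨d, x, hx⟩ := exists_coord b hR hRK hRC hs
  have hd2 : d = 2 := by
    have h1 := hx.dim.symm.trans h2
    exact_mod_cast h1
  subst hd2
  have hn : 2 ≤ n := hx.le
  have hlt' : disc b Z E < ((2 : ℕ) : ℚ) := by exact_mod_cast hlt
  have hord := hx.ord_eq_one b hZ hC hE hd hlt'
  obtain ⟨a, ha, e⟩ := hx.gen (y i0) (hy i0) hi0
  obtain ⟨j0, hj0⟩ : ∃ j0 : Fin n, (j0 : ℕ) = 0 := ⟨⟨0, by omega⟩, rfl⟩
  obtain ⟨j1, hj1⟩ : ∃ j1 : Fin n, (j1 : ℕ) = 1 := ⟨⟨1, by omega⟩, rfl⟩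
  have hj01 : j0 ≠ j1 := by
    intro h
    rw [h, hj1] at hj0
    exact one_ne_zero hj0
  have hlow : low n 2 = {j0, j1} := by
    ext i
    rw [mem_low, Finset.mem_insert, Finset.mem_singleton, Fin.ext_iff, Fin.ext_iff, hj0, hj1]
    omega
  rw [hlow, Finset.sum_pair hj01] at e
  have hx0 : x j0 ≠ 0 := by
    intro h
    apply hx.nonunit j0 (by omega)
    rw [h, inv_zero]
    exact C.zero_mem
  have hu := NC2_unit b hj hspan (ha j0) (ha j1) (hx.mem j0) (hx.mem j1)
    (hx.nonunit j0 (by omega)) (hx.nonunit j1 (by omega)) e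
  obtain ⟨G, hG⟩ : ∃ G : MvPolynomial (Fin n) K, G =
    MvPolynomial.C (a j0) + MvPolynomial.C (a j1) * MvPolynomial.X j1 := ⟨_, rfl⟩
  have hco : ∀ s, G.coeff s = (if s = 0 then a j0 else 0) +
      (if s = Finsupp.single j1 1 then a j1 else 0) := by
    intro s
    rw [hG, MvPolynomial.coeff_add, MvPolynomial.coeff_C, MvPolynomial.coeff_C_mul,
      MvPolynomial.coeff_X]
    simp only [mul_ite, mul_one, mul_zero, eq_comm]
  have hne : (0 : Fin n →₀ ℕ) ≠ Finsupp.single j1 1 := by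
    intro h
    have := Finsupp.single_eq_zero.1 h.symm
    exact one_ne_zero this
  obtain ⟨g1, g2⟩ := hx.unit_of_coeff b hZ hC hE hd hlt' hj0 (by omega) G
    (by
      intro s
      rw [hco]
      refine C.add_mem ?_ ?_
      · split_ifs
        · exact ha j0
        · exact C.zero_mem
      · split_ifs
        · exact ha j1
        · exact C.zero_mem)
    (by
      rcases hu with hu | hu
      · refine ⟨0, ?_⟩
        rw [hco, if_pos rfl, if_neg hne, add_zero]
        exact hu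
      · refine ⟨Finsupp.single j1 1, ?_⟩
        rw [hco, if_neg hne.symm, if_pos rfl, zero_add]
        exact hu)
    (by
      intro i hi
      have h3 : i ∈ (MvPolynomial.C (a j0) : MvPolynomial (Fin n) K).vars ∪
          (MvPolynomial.C (a j1) * MvPolynomial.X j1 : MvPolynomial (Fin n) K).vars := by
        rw [hG] at hi
        exact MvPolynomial.vars_add_subset _ _ hi
      rw [MvPolynomial.vars_C, Finset.empty_union] at h3
      have h4 := MvPolynomial.vars_mul _ _ h3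
      rw [MvPolynomial.vars_C, Finset.empty_union, MvPolynomial.vars_X,
        Finset.mem_singleton] at h4
      rw [h4]
      exact ⟨hj01.symm, by omega⟩)
  have hv : MvPolynomial.aeval (blow 2 x j0) G = a j0 + a j1 * (x j1 * (x j0)⁻¹) := by
    rw [hG, map_add, map_mul, MvPolynomial.aeval_C, MvPolynomial.aeval_C, MvPolynomial.aeval_X]
    have h3 : blow 2 x j0 j1 = x j1 * (x j0)⁻¹ := by
      unfold blow
      rw [if_neg hj01.symm, if_pos (by omega)]
    rw [h3]
    rfl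
  rw [hv] at g1 g2
  have h5 : y i0 = x j0 * (a j0 + a j1 * (x j1 * (x j0)⁻¹)) := by
    rw [e]
    field_simp
  rw [h5, ord_mul hE.1 hx0 g1, hord j0 (by omega)]
  have h6 : ord E (a j0 + a j1 * (x j1 * (x j0)⁻¹)) = 0 := by
    rw [ord_eq_zero_iff hE.1 g1]
    refine ⟨?_, g2⟩
    refine E.add_mem (hd.1 (ha j0)) (E.mul_mem (hd.1 (ha j1)) ?_)
    have hx1 : x j1 ≠ 0 := by
      intro h
      apply hx.nonunit j1 (by omega)
      rw [h, inv_zero]
      exact C.zero_mem
    rw [mem_iff hE.1 (mul_ne_zero hx1 (inv_ne_zero hx0)), ord_mul hE.1 hx1 (inv_ne_zero hx0),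
      ord_inv hE.1, hord j0 (by omega), hord j1 (by omega)]
    omega
  rw [h6, add_zero]

end Flip28
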