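import Pool.Agent.FlipN_h28.NB2
import Pool.Agent.FlipN_h28.NC1
import Pool.Agent.FlipN_h28.NC2

/-! # Blowing up general points of codimension one of a prime divisor -/

open scoped KaehlerDifferential

universe u

namespace Flip28

variable {k K : Type u} [Field k] [Field K] [Algebra k K] {n : ℕ}
  (b : Module.Basis (Fin n) K Ω[K⁄k]) {Z : Set (Subalgebra k K)}

/-- The first coordinate is a uniformizer. -/
theorem NC3_unif {P : Subalgebra k K} (hPd : IsDVR P) {y : Fin n → K} (hy : IsCoord b P 1 y)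
    {i0 : Fin n} (hi0 : (i0 : ℕ) = 0) : y i0 ≠ 0 ∧ ord P (y i0) = 1 := by
  have h1 : (y i0)⁻¹ ∉ P := hy.nonunit i0 (by omega)
  have h0 : y i0 ≠ 0 := by
    intro h
    rw [h, inv_zero] at h1
    exact h1 P.zero_mem
  refine ⟨h0, ?_⟩
  have h2 : 0 < ord P (y i0) := (ord_pos_iff hPd h0).2 h1
  obtain ⟨t, ht0, ht1⟩ := exists_ord_one hPd
  have htP : t ∈ P := (mem_iff hPd ht0).2 (by omega)
  have hti : t⁻¹ ∉ P := (ord_pos_iff hPd ht0).1 (by omega)
  obtain ⟨a, ha, he⟩ := hy.gen t htP hti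
  have hlow : low n 1 = {i0} := by
    ext i
    rw [mem_low, Finset.mem_singleton, Fin.ext_iff, hi0]
    omega
  rw [hlow, Finset.sum_singleton] at he
  have ha0 : a i0 ≠ 0 := by
    intro h
    rw [h, zero_mul] at he
    exact ht0 he
  have h3 := (mem_iff hPd ha0).1 (ha i0)
  rw [he, ord_mul hPd ha0 h0] at ht1
  omega

/-- For almost all points `C` of codimension one of the prime divisor `P` of the smooth variety
`Z` the form `g ω^m` has order `m + ord_P` along the blow up of `C`.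

Proof: `y`, `T` as in `exists_spread`, `t = y_0` (uniformizer of `P` because of `gen`, `nonunit`),
`p = kord m P g`, `h = g * t ^ (-p) * (jac y) ^ (-m)`.  As `kord 1 P (jac y) = 0` (`isGen`),
`ord_P h = 0`, so `h, h⁻¹ ∈ P`.  By `finite_not_mem` all but finitely many `C` contain
`T ∪ {h, h⁻¹}`.  For such a `C`: `t⁻¹ ∉ C` because `t⁻¹ ∉ P`; `jac y` generates `K_Z` at `C`
(`cord_eq_of_span` for the `Q ∈ Z`, `Q ≥ C`, `coeff_of_isLoc`), so `kord 1 E (jac y) = a(E, Z) = 1`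
(`kord_eq_of_isGen`, `disc_lt_two`), `ord_E t = 1` (`ord_coord_eq_one`) and
`kord m E g = ord_E h + p ord_E t + m kord 1 E (jac y) = p + m`. -/
theorem finite_nongeneric [CharZero k] [Algebra.EssFiniteType k K] (hZ : IsCompleteNormal Z)
    (hs : ∀ A ∈ Z, Algebra.FormallySmooth k A) {P : Subalgebra k K} (hP : P ∈ Z)
    (hPd : IsDVR P) (m : ℤ) {g : K} (hg : g ≠ 0) :
    {C | C ∈ Z ∧ C ≤ P ∧ ringKrullDim C = ((2 : ℕ) : WithBot ℕ∞) ∧
      ¬ ∀ E, IsPrimeDiv E → Dom C E → disc b Z E < 2 →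
        kord b m E g = kord b m P g + m}.Finite := by
  obtain ⟨y, T, hy, hT, hTP, hsp⟩ := exists_spread b hZ hP hPd (hs P hP)
  have hn : 0 < n := lt_of_lt_of_le one_pos hy.le
  obtain ⟨i0, hi0⟩ : ∃ i0 : Fin n, (i0 : ℕ) = 0 := ⟨⟨0, hn⟩, rfl⟩
  obtain ⟨ht0, ht1⟩ := NC3_unif b hPd hy hi0
  have hti : (y i0)⁻¹ ∉ P := hy.nonunit i0 (by omega)
  have hj : jac b y ≠ 0 := hy.ne
  have hkj : kord b 1 P (jac b y) = 0 := (hy.isGen b hZ hP).2 P hP hPd le_rfl
  obtain ⟨p, hp⟩ : ∃ p : ℤ, p = kord b m P g := ⟨_, rfl⟩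
  obtain ⟨h, hh⟩ : ∃ h : K, h = g * (y i0) ^ (-p) * (jac b y) ^ (-m) := ⟨_, rfl⟩
  have hh0 : h ≠ 0 := by
    rw [hh]
    exact mul_ne_zero (mul_ne_zero hg (zpow_ne_zero _ ht0)) (zpow_ne_zero _ hj)
  have hoh : ord P h = 0 := by
    rw [hh, ord_mul hPd (mul_ne_zero hg (zpow_ne_zero _ ht0)) (zpow_ne_zero _ hj),
      ord_mul hPd hg (zpow_ne_zero _ ht0), ord_zpow hPd ht0, ord_zpow hPd hj, ht1, hp]
    unfold kord at hkj ⊢
    have h1 : ord P (jac b y) = -cord b P := by linarith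
    rw [h1]
    ring
  obtain ⟨hhP, hhiP⟩ := (ord_eq_zero_iff hPd hh0).1 hoh
  have hfin : (⋃ f ∈ (T ∪ {h, h⁻¹} : Set K), {C | C ∈ Z ∧ C ≤ P ∧
      ringKrullDim C = ((2 : ℕ) : WithBot ℕ∞) ∧ f ∉ C}).Finite := by
    refine Set.Finite.biUnion (hT.union (Set.toFinite _)) fun f hf => ?_
    refine finite_not_mem hZ hP hPd ?_
    rcases hf with hf | hf
    · exact hTP f hf
    · rcases hf with hf | hf
      · rw [hf]
        exact hhP
      · rw [Set.mem_singleton_iff] at hf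
        rw [hf]
        exact hhiP
  refine hfin.subset ?_
  rintro C ⟨hC, hCP, hC2, hne⟩
  rw [Set.mem_iUnion₂]
  by_contra hcon
  have hin : ∀ f ∈ (T ∪ {h, h⁻¹} : Set K), f ∈ C := by
    intro f hf
    by_contra hfC
    exact hcon ⟨f, hf, hC, hCP, hC2, hfC⟩
  apply hne
  intro E hE hd hlt
  have hEd : IsDVR E := hE.1
  obtain ⟨hyC, hspan⟩ := hsp C hC hCP fun f hf => hin f (Or.inl hf)
  have hhC : h ∈ C := hin h (Or.inr (Or.inl rfl))
  have hhiC : h⁻¹ ∈ C := hin h⁻¹ (Or.inr (Or.inr rfl))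
  have htC : (y i0)⁻¹ ∉ C := fun h1 => hti (hCP h1)
  have hgen : IsGen b Z 1 C (jac b y) := by
    refine ⟨hj, fun Q hQ hQd hCQ => ?_⟩
    have hloc := hZ.isLoc_of_le hC hQ hCQ
    have hsp2 := coeff_of_isLoc hloc (C : Set K) (Algebra.adjoin_eq C).symm y (fun r hr => by
      obtain ⟨a, ha, e⟩ := hspan r hr
      exact ⟨a, fun i => hCQ (ha i), e⟩)
    have h1 := cord_eq_of_span b (hZ.isPrimeDiv hQ hQd) (fun i => hCQ (hyC i)) hj hsp2
    unfold kord
    rw [h1]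
    ring
  have hd1 : disc b Z E = 1 := disc_lt_two b hZ hC (hs C hC) hE hd (by exact_mod_cast hC2) hlt
  have hk1 : kord b 1 E (jac b y) = 1 := by
    have h1 := kord_eq_of_isGen b hZ hC (hs C hC) hE hd hgen
    rw [hd1] at h1
    have h2 : ((kord b 1 E (jac b y) : ℤ) : ℚ) = ((1 : ℤ) : ℚ) := by
      rw [h1]
      norm_num
    exact_mod_cast h2
  have ht : ord E (y i0) = 1 := ord_coord_eq_one b hZ hC (hs C hC) hC2 hE hd hlt hyC hj hspan htC
  have hEh : ord E h = 0 := (ord_eq_zero_iff hEd hh0).2 ⟨hd.1 hhC, hd.1 hhiC⟩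
  rw [hh, ord_mul hEd (mul_ne_zero hg (zpow_ne_zero _ ht0)) (zpow_ne_zero _ hj),
    ord_mul hEd hg (zpow_ne_zero _ ht0), ord_zpow hEd ht0, ord_zpow hEd hj, ht] at hEh
  rw [← hp]
  unfold kord at hk1 ⊢
  have h1 : ord E (jac b y) = 1 - cord b E := by linarith
  rw [h1] at hEh
  linarith

end Flip28
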