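import Pool.Agent.FlipN_h28.NB2

/-! # Discrepancies and resolutions -/

open scoped KaehlerDifferential

universe u

namespace Flip28

variable {k K : Type u} [Field k] [Field K] [Algebra k K] [CharZero k]
  [Algebra.EssFiniteType k K] {n : ℕ} {b : Module.Basis (Fin n) K Ω[K⁄k]}
  {X Z : Set (Subalgebra k K)} {c : ℕ}

/-- A point of `Z` which is not in `X` lies over a singular point.  Proof: if `x` were smooth it
would be a point of `Z` dominated by `C`, so `x = C` by uniqueness of centres (`hZ.unique`). -/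
theorem ResSit.singular (h : ResSit b c X Z) {C x : Subalgebra k K} (hC : C ∈ Z) (hCX : C ∉ X)
    (hx : x ∈ X) (hxC : Dom x C) : ¬ Algebra.FormallySmooth k x := by
  intro hs
  have h1 : x ∈ Z := h.iso x hx hs
  have h2 : x = C := h.cZ.unique h1 hC (h.cZ.isLocalRing hC) hxC (Dom.refl C)
  rw [h2] at hx
  exact hCX hx

/-- Proof: `h.singular` and `h.term.disc`. -/
theorem ResSit.disc_exc (h : ResSit b c X Z) {P : Subalgebra k K} (hP : P ∈ Z)
    (hPd : IsDVR P) (hPX : P ∉ X) : (c : ℚ) - 2 < disc b X P := by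
  obtain ⟨x, hx, hxP⟩ := h.down P hP
  exact h.term.disc P (h.cZ.isPrimeDiv hP hPd) x hx hxP (h.singular hP hPX hx hxP)

/-- Let `g` generate `O_X(m K_X)` at the centre `A` of `E`, `C` the centre of `E` on `Z`.  The
orders of `g` along the prime divisors `Q ∈ Z` through `C` are `0` if `Q ∈ X` and `m a(Q, X)` if
not; they are `≥ 0`.

Proof: `A ≤ C ≤ Q` (`h.down C` gives a point dominated by `C`, hence by `E`, so it is `A`).  If
`Q ∈ X` use `hg`; if `Q ∉ X` let `x ∈ X` be the centre of `Q`, `A ≤ x` by `isLoc_centre`, so `g` is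
a generator at `x` (`IsGen.mono`) and `disc_eq` applies. -/
theorem ResSit.kord_exc (h : ResSit b c X Z) {A C E Q : Subalgebra k K} (hE : IsPrimeDiv E)
    (hA : A ∈ X) (hAE : Dom A E) (hC : C ∈ Z) (hCE : Dom C E) {m : ℤ} (hm : 0 < m) {g : K}
    (hg : IsGen b X m A g) (hQ : Q ∈ Z) (hQd : IsDVR Q) (hCQ : C ≤ Q) :
    0 ≤ kord b m Q g ∧ (Q ∈ X → kord b m Q g = 0) ∧
      (Q ∉ X → (kord b m Q g : ℚ) = m * disc b X Q) := by
  obtain ⟨x0, hx0, hx0C⟩ := h.down C hC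
  have hAx : A = x0 := h.cX.unique hA hx0 (Disc_isLocalRing hE) hAE (hx0C.trans hCE)
  have hAC : A ≤ C := by
    rw [hAx]
    exact hx0C.1
  have hAQ : A ≤ Q := hAC.trans hCQ
  have h1 : Q ∈ X → kord b m Q g = 0 := fun hQX => hg.2 Q hQX hQd hAQ
  have h2 : Q ∉ X → (kord b m Q g : ℚ) = m * disc b X Q := by
    intro _
    obtain ⟨x, hx, hxQ⟩ := h.down Q hQ
    have hAx' : IsLoc A x := h.cX.isLoc_centre hA hx (h.cZ.isLocalRing hQ) hAQ hxQ
    have h3 := disc_eq b h.cX (h.cZ.isPrimeDiv hQ hQd) hx hxQ hm (hg.mono b hAx'.1)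
    have hm0 : (m : ℚ) ≠ 0 := by exact_mod_cast hm.ne'
    rw [h3]
    field_simp
  refine ⟨?_, h1, h2⟩
  by_cases hQX : Q ∈ X
  · rw [h1 hQX]
  · have h3 := h2 hQX
    have h4 := h.disc_exc hQ hQd hQX
    have hc : (2 : ℚ) ≤ c := by exact_mod_cast h.hc
    have hm0 : (0 : ℚ) < m := by exact_mod_cast hm
    have h5 : (0 : ℚ) ≤ (kord b m Q g : ℚ) := by
      rw [h3]
      exact mul_nonneg hm0.le (by linarith)
    exact_mod_cast h5

/-- Proof: `kord_ge_add` for a generator `g` at the centre of `E` on `X` (`h.gen`,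
`exists_centre`), `ResSit.kord_exc`, `disc_eq`; divide by `m`. -/
theorem ResSit.disc_add_le (h : ResSit b c X Z) {C E P : Subalgebra k K} (hE : IsPrimeDiv E)
    (hC : C ∈ Z) (hCE : Dom C E) (hP : P ∈ Z) (hPd : IsDVR P) (hPX : P ∉ X) (hCP : C ≤ P) :
    disc b Z E + disc b X P ≤ disc b X E := by
  obtain ⟨A, hA, hAE⟩ := h.cX.exists_centre hE.1.isVal
  obtain ⟨m, hm, g, hg⟩ := h.gen A hA
  have h1 := kord_ge_add b h.cZ hC (h.sm C hC) hE hCE (m := m) hg.1
    (fun Q hQ hQd hCQ => (h.kord_exc hE hA hAE hC hCE hm hg hQ hQd hCQ).1) hP hPd hCP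
  have h2 := (h.kord_exc hE hA hAE hC hCE hm hg hP hPd hCP).2.2 hPX
  have h3 := disc_eq b h.cX hE hA hAE hm hg
  have hm0 : (0 : ℚ) < m := by exact_mod_cast hm
  rw [h3, le_div_iff₀ hm0]
  rw [h2] at h1
  linarith

/-- Proof: if all `Q ∈ Z`, `Q ≥ C`, are in `X`, a generator `g` of `m K_X` at the centre of `E`
generates `m K_Z` at `C`; `kord_eq_of_isGen`, `disc_eq`. -/
theorem ResSit.disc_eq_of_no_exc (h : ResSit b c X Z) {C E : Subalgebra k K}
    (hE : IsPrimeDiv E) (hC : C ∈ Z) (hCE : Dom C E)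
    (hno : ∀ P ∈ Z, IsDVR P → C ≤ P → P ∈ X) : disc b X E = disc b Z E := by
  obtain ⟨A, hA, hAE⟩ := h.cX.exists_centre hE.1.isVal
  obtain ⟨m, hm, g, hg⟩ := h.gen A hA
  have hgZ : IsGen b Z m C g := ⟨hg.1, fun P hP hPd hCP =>
    (h.kord_exc hE hA hAE hC hCE hm hg hP hPd hCP).2.1 (hno P hP hPd hCP)⟩
  have h1 := kord_eq_of_isGen b h.cZ hC (h.sm C hC) hE hCE hgZ
  have h3 := disc_eq b h.cX hE hA hAE hm hg
  have hm0 : (m : ℚ) ≠ 0 := by exact_mod_cast hm.ne'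
  rw [h3, h1]
  field_simp

end Flip28
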