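import Pool.Agent.FlipN_h28.ND1

/-! # Centres on a resolution -/

open scoped KaehlerDifferential

universe u

namespace Flip28

variable {k K : Type u} [Field k] [Field K] [Algebra k K] [CharZero k]
  [Algebra.EssFiniteType k K] {n : ℕ} {b : Module.Basis (Fin n) K Ω[K⁄k]}
  {X Z : Set (Subalgebra k K)} {c : ℕ}

/-- The points `C` of `Z` not in `X` on no exceptional prime divisor have dimension at least `c`.
Proof: let `E` be the blow up of `C` (`exists_coord`, `IsCoord.exists_blow`; `dim C > 0` since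
`⊤ ∈ X`), `disc b Z E = dim C - 1`; its centre on `X` is singular (`h.singular`, the centre `x` of
`C`), so `c - 2 < disc b X E = disc b Z E` by `disc_eq_of_no_exc`. -/
theorem ResSit.dim_ge (h : ResSit b c X Z) {C : Subalgebra k K} (hC : C ∈ Z) (hCX : C ∉ X)
    (hno : ∀ P ∈ Z, IsDVR P → C ≤ P → P ∈ X) {e : ℕ} (he : ringKrullDim C = e) : c ≤ e := by
  obtain ⟨R, hR, hK, hRC, -⟩ := h.cZ.exists_chart hC
  obtain ⟨d, x, hx⟩ := exists_coord b hR hK hRC (h.sm C hC)
  have hed : d = e := by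
    have h1 := hx.dim
    rw [he] at h1
    exact_mod_cast h1.symm
  subst hed
  have he0 : 0 < d := by
    rcases Nat.eq_zero_or_pos d with h0 | h0
    · exfalso
      subst h0
      have h1 : C = ⊤ := (h.cZ.eq_top_iff hC).2 (by simpa using he)
      exact hCX (h1 ▸ h.cX.top_mem)
    · exact h0
  obtain ⟨E, hE, hCE, hdisc⟩ := hx.exists_blow b h.cZ hC he0
  obtain ⟨y, hy, hyC⟩ := h.down C hC
  have hs := h.singular hC hCX hy hyC
  have h1 := h.term.disc E hE y hy (hyC.trans hCE) hs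
  rw [h.disc_eq_of_no_exc hE hC hCE hno, hdisc] at h1
  have h2 : (c : ℚ) < (d : ℚ) + 1 := by linarith
  have h3 : c < d + 1 := by exact_mod_cast h2
  omega

/-- The possible centres on `Z` of a prime divisor `E` with singular centre on `X` and
`a(E, X) < c`.

Proof: `C ∉ X` since otherwise `C` is the centre of `E` on `X`, `C = A`, smooth by `h.sm`.  If
`dim C ≤ 1` then `C` is a DVR (`isDVR_iff`; `C ≠ ⊤` as `⊤ ∈ X`) and `C = E` (`IsDVR.eq_of_le`).
Let `dim C = e ≥ 2`.  If there is an exceptional `P ≥ C` then `a(E, Z) + a(P, X) ≤ a(E, X) < c`,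
`a(P, X) > c - 2` and `a(E, Z) ≥ e - 1 ≥ 1` (`disc_ge_of_smooth`) give `a(E, Z) < 2`, `e = 2`,
`a(P, X) < c - 1`.  If there is none, `a(E, Z) = a(E, X) < c`. -/
theorem ResSit.cases (h : ResSit b c X Z) {A C E : Subalgebra k K} (hE : IsPrimeDiv E)
    (hA : A ∈ X) (hAE : Dom A E) (hAs : ¬ Algebra.FormallySmooth k A) (hC : C ∈ Z)
    (hCE : Dom C E) (hlt : disc b X E < c) :
    (E ∈ Z ∧ E ∉ X ∧ ringKrullDim E = ((1 : ℕ) : WithBot ℕ∞)) ∨
    (∃ P ∈ Z, IsDVR P ∧ P ∉ X ∧ disc b X P < (c : ℚ) - 1 ∧ C ≤ P ∧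
      ringKrullDim C = ((2 : ℕ) : WithBot ℕ∞) ∧ disc b Z E < 2 ∧
      disc b Z E + disc b X P ≤ disc b X E) ∨
    (C ∉ X ∧ (∀ P ∈ Z, IsDVR P → C ≤ P → P ∈ X) ∧ disc b Z E < c) := by
  have hCX : C ∉ X := by
    intro hCX
    have h1 : A = C := h.cX.unique hA hCX hE.1.isVal.isLocalRing hAE hCE
    exact hAs (h1 ▸ h.sm C hC)
  obtain ⟨e, he, -⟩ := dim_le_basis b h.cZ hC
  by_cases hno : ∀ P ∈ Z, IsDVR P → C ≤ P → P ∈ X
  · refine Or.inr (Or.inr ⟨hCX, hno, ?_⟩)
    rw [← h.disc_eq_of_no_exc hE hC hCE hno]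
    exact hlt
  · push Not at hno
    obtain ⟨P, hP, hPd, hCP, hPX⟩ := hno
    rcases Nat.lt_or_ge e 2 with h2 | h2
    · left
      rcases Nat.eq_zero_or_pos e with h0 | h0
      · exfalso
        subst h0
        have h1 : C = ⊤ := (h.cZ.eq_top_iff hC).2 (by simpa using he)
        exact hCX (h1 ▸ h.cX.top_mem)
      · have h1 : e = 1 := by omega
        subst h1
        have hCd : IsDVR C := (h.cZ.isDVR_iff hC).2 (by simpa using he)
        have h3 : E = C := hCd.eq_of_le hCE.1 hE.1.ne_top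
        subst h3
        exact ⟨hC, hCX, he⟩
    · have h3 := h.disc_add_le hE hC hCE hP hPd hPX hCP
      have h4 := h.disc_exc hP hPd hPX
      have h5 := disc_ge_of_smooth b h.cZ hC (h.sm C hC) hE hCE he
      have h6 : (2 : ℚ) ≤ e := by exact_mod_cast h2
      have h7 : (e : ℚ) < 3 := by linarith
      have h8 : e < 3 := by exact_mod_cast h7
      have h9 : e = 2 := by omega
      subst h9
      refine Or.inr (Or.inl ⟨P, hP, hPd, hPX, ?_, hCP, he, ?_, h3⟩)
      · push_cast at h5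
        linarith
      · linarith

/-- Proof: by `ResSit.cases` such an `E` is one of the finitely many prime divisors of `Z` not in
`X` (`finite_removed` with `X := Z`, `X' := X`, `c := 1`): in the second case
`a(E, X) > a(E, Z) + c - 2 ≥ c - 1`, in the third case `dim C ≥ c` by `dim_ge` and
`a(E, X) = a(E, Z) ≥ c - 1` by `disc_eq_of_no_exc`, `disc_ge_of_smooth`. -/
theorem ResSit.finite_bad (h : ResSit b c X Z) :
    {E | IsPrimeDiv E ∧ (∃ A ∈ X, Dom A E ∧ ¬ Algebra.FormallySmooth k A) ∧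
      disc b X E < (c : ℚ) - 1}.Finite := by
  have h1 : ∀ A ∈ Z, A ∉ X → ((1 : ℕ) : WithBot ℕ∞) ≤ ringKrullDim A := by
    intro A hA hAX
    obtain ⟨e, he, -⟩ := dim_le_basis b h.cZ hA
    rcases Nat.eq_zero_or_pos e with h0 | h0
    · exfalso
      subst h0
      have h1 : A = ⊤ := (h.cZ.eq_top_iff hA).2 (by simpa using he)
      exact hAX (h1 ▸ h.cX.top_mem)
    · rw [he]
      exact_mod_cast h0
  refine (finite_removed h.cZ h.cX h1).subset ?_
  rintro E ⟨hE, ⟨A, hA, hAE, hAs⟩, hlt⟩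
  obtain ⟨C, hC, hCE⟩ := h.cZ.exists_centre hE.1.isVal
  rcases h.cases hE hA hAE hAs hC hCE (by linarith) with h2 | h2 | h2
  · exact h2
  · exfalso
    obtain ⟨P, hP, hPd, hPX, -, -, hdim, -, hadd⟩ := h2
    have h4 := h.disc_exc hP hPd hPX
    have h5 := disc_ge_of_smooth b h.cZ hC (h.sm C hC) hE hCE hdim
    push_cast at h5
    linarith
  · exfalso
    obtain ⟨hCX, hno, -⟩ := h2
    obtain ⟨e, he, -⟩ := dim_le_basis b h.cZ hC
    have h3 : (c : ℚ) ≤ e := by exact_mod_cast h.dim_ge hC hCX hno he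
    have h5 := disc_ge_of_smooth b h.cZ hC (h.sm C hC) hE hCE he
    rw [← h.disc_eq_of_no_exc hE hC hCE hno] at h5
    linarith

end Flip28
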