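import Pool.Agent.FlipN_h28.ND2
import Pool.Agent.FlipN_h28.NC3

/-! # Prime divisors of small discrepancy -/

open scoped KaehlerDifferential

universe u

namespace Flip28

variable {k K : Type u} [Field k] [Field K] [Algebra k K] [CharZero k]
  [Algebra.EssFiniteType k K] {n : ℕ} {b : Module.Basis (Fin n) K Ω[K⁄k]}
  {X Z : Set (Subalgebra k K)} {c : ℕ}

/-- at most one prime divisor over a smooth point of dimension `e` has discrepancy `< e` -/
theorem ND3_sub (hZ : IsCompleteNormal Z) {C : Subalgebra k K} (hC : C ∈ Z)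
    (hs : Algebra.FormallySmooth k C) {e : ℕ} (he : ringKrullDim C = e) {r : ℚ} (hr : r ≤ e) :
    {E | IsPrimeDiv E ∧ Dom C E ∧ disc b Z E < r}.Finite := by
  obtain ⟨R, hR, hK, hRA, -⟩ := hZ.exists_chart hC
  obtain ⟨d, x, hx⟩ := exists_coord b hR hK hRA hs
  have hed : d = e := by
    have h1 := hx.dim
    rw [he] at h1
    exact_mod_cast h1.symm
  subst hed
  refine Set.Subsingleton.finite ?_
  rintro E ⟨hE, hCE, hlt⟩ E' ⟨hE', hCE', hlt'⟩
  exact hx.unique b hZ hC hE hCE (lt_of_lt_of_le hlt hr) hE' hCE' (lt_of_lt_of_le hlt' hr)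

/-- The prime divisors with singular centre and discrepancy `< c`, up to finitely many, are the
blow ups of points `C` of codimension one of prime divisors `P` of `Z` with `a(P, X) < c - 1`, and
the forms `g ω^m` of a given finite set `S P` have order `m + ord_P` along them.

Proof: the finite set `ℰ` is the union of: the prime divisors of `Z` not in `X`
(`finite_removed`); for the finitely many such `P` and the finitely many `C` of
`finite_nongeneric` for the elements of `S P` the prime divisors `E` over `C` with `a(E, Z) < 2`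
(at most one: `IsCoord.unique`, `d = 2`); for the points `C` of the finite set of generic points
of `Z \ X` (`Opn.exists_generic`, `opn_model`) with `dim C ≥ c` the `E` over `C` with
`a(E, Z) < c` (at most one by `IsCoord.unique`).  In the third case of `ResSit.cases`, `C ≤ B` with
`B ∉ X` in this set, no exceptional `P ≥ B`, so `dim B ≥ c` (`dim_ge`), and `dim C > dim B` if
`C ≠ B` (`dim_lt_of_le_ne`), whence `a(E, Z) ≥ dim C - 1 ≥ c`, a contradiction; so `C = B`. -/
theorem ResSit.finite_or (h : ResSit b c X Z) (S : Subalgebra k K → Finset (ℤ × K))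
    (hS : ∀ P, ∀ q ∈ S P, q.2 ≠ 0) :
    ∃ ℰ : Set (Subalgebra k K), ℰ.Finite ∧ ∀ E, IsPrimeDiv E → ∀ A ∈ X, Dom A E →
      ¬ Algebra.FormallySmooth k A → disc b X E < c → E ∈ ℰ ∨
      ∃ P ∈ Z, IsDVR P ∧ P ∉ X ∧ disc b X P < (c : ℚ) - 1 ∧ A ≤ P ∧
        ∀ q ∈ S P, kord b q.1 E q.2 = kord b q.1 P q.2 + q.1 := by
  classical
  have hone : ∀ P ∈ Z, IsDVR P → ringKrullDim P = ((1 : ℕ) : WithBot ℕ∞) := by
    intro P hP hPd
    rw [(h.cZ.isDVR_iff hP).1 hPd]
    rfl
  -- the exceptional prime divisors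
  have hfin1 : {P | P ∈ Z ∧ P ∉ X ∧ ringKrullDim P = ((1 : ℕ) : WithBot ℕ∞)}.Finite := by
    refine finite_removed h.cZ h.cX (c := 1) ?_
    intro A hA hAX
    obtain ⟨e, he, -⟩ := dim_le_basis b h.cZ hA
    rw [he]
    rcases Nat.eq_zero_or_pos e with h0 | h0
    · exfalso
      subst h0
      have h1 : A = ⊤ := (h.cZ.eq_top_iff hA).2 (by simpa using he)
      exact hAX (h1 ▸ h.cX.top_mem)
    · exact_mod_cast h0
  -- the special points of codimension one of the exceptional prime divisors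
  have hfin2 : (⋃ P ∈ {P | P ∈ Z ∧ P ∉ X ∧ ringKrullDim P = ((1 : ℕ) : WithBot ℕ∞)},
      ⋃ q ∈ S P, ⋃ C ∈ {C | C ∈ Z ∧ C ≤ P ∧ ringKrullDim C = ((2 : ℕ) : WithBot ℕ∞) ∧
        ¬ ∀ E, IsPrimeDiv E → Dom C E → disc b Z E < 2 →
          kord b q.1 E q.2 = kord b q.1 P q.2 + q.1},
      {E | IsPrimeDiv E ∧ Dom C E ∧ disc b Z E < 2}).Finite := by
    refine hfin1.biUnion fun P hP => ?_
    refine (S P).finite_toSet.biUnion fun q hq => ?_
    have hPd : IsDVR P := by
      rw [h.cZ.isDVR_iff hP.1, hP.2.2]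
      rfl
    refine (finite_nongeneric b h.cZ h.sm hP.1 hPd q.1 (hS P q hq)).biUnion fun C hC => ?_
    exact ND3_sub (b := b) h.cZ hC.1 (h.sm C hC.1) hC.2.2.1 (by norm_num)
  -- the generic points of the exceptional locus
  obtain ⟨T, hT, hTZ, hTU, hgen⟩ := (opn_model (X := Z) h.cX).exists_generic h.cZ
  have hfin3 : (⋃ C ∈ T, {E | ∃ e : ℕ, ringKrullDim C = e ∧ c ≤ e ∧
      IsPrimeDiv E ∧ Dom C E ∧ disc b Z E < c}).Finite := by
    refine hT.biUnion fun C hC => ?_
    obtain ⟨e, he, -⟩ := dim_le_basis b h.cZ (hTZ hC)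
    by_cases hce : c ≤ e
    · refine (ND3_sub (b := b) h.cZ (hTZ hC) (h.sm C (hTZ hC)) he
        (r := (c : ℚ)) (by exact_mod_cast hce)).subset ?_
      rintro E ⟨-, -, -, hE⟩
      exact hE
    · convert Set.finite_empty
      rw [Set.eq_empty_iff_forall_notMem]
      rintro E ⟨e', he', hce', -⟩
      rw [he] at he'
      have h1 : e = e' := by exact_mod_cast he'
      omega
  refine ⟨_, (hfin1.union hfin2).union hfin3, fun E hE A hA hAE hAs hlt => ?_⟩
  obtain ⟨C, hC, hCE⟩ := h.cZ.exists_centre hE.1.isVal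
  rcases h.cases hE hA hAE hAs hC hCE hlt with hc | ⟨P, hP, hPd, hPX, hPlt, hCP, hC2, hE2, -⟩ |
    ⟨hCX, hno, hElt⟩
  · exact Or.inl (Or.inl (Or.inl hc))
  · by_cases hq : ∀ q ∈ S P, ∀ E, IsPrimeDiv E → Dom C E → disc b Z E < 2 →
          kord b q.1 E q.2 = kord b q.1 P q.2 + q.1
    · refine Or.inr ⟨P, hP, hPd, hPX, hPlt, ?_, fun q hqS => hq q hqS E hE hCE hE2⟩
      obtain ⟨x, hx, hxC⟩ := h.down C hC
      have h1 : x = A := h.cX.unique hx hA hE.1.isVal.isLocalRing (hxC.trans hCE) hAE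
      exact h1 ▸ hxC.1.trans hCP
    · push Not at hq
      obtain ⟨q, hqS, hq⟩ := hq
      refine Or.inl (Or.inl (Or.inr ?_))
      refine Set.mem_biUnion (show P ∈ {P | P ∈ Z ∧ P ∉ X ∧
        ringKrullDim P = ((1 : ℕ) : WithBot ℕ∞)} from ⟨hP, hPX, hone P hP hPd⟩) ?_
      refine Set.mem_biUnion hqS ?_
      refine Set.mem_biUnion (x := C) ?_ ?_
      · refine ⟨hC, hCP, hC2, fun hall => ?_⟩
        obtain ⟨E', hE', hCE', hlt', hne⟩ := hq
        exact hne (hall E' hE' hCE' hlt')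
      · exact ⟨hE, hCE, hE2⟩
  · obtain ⟨B, hB, hCB⟩ := hgen C hC hCX
    obtain ⟨e, he, -⟩ := dim_le_basis b h.cZ (hTZ hB)
    have hce : c ≤ e := h.dim_ge (hTZ hB) (hTU B hB)
      (fun P hP hPd hBP => hno P hP hPd (hCB.trans hBP)) he
    refine Or.inl (Or.inr ?_)
    by_cases hne : C = B
    · subst hne
      exact Set.mem_biUnion hB ⟨e, he, hce, hE, hCE, hElt⟩
    · exfalso
      have h1 := dim_lt_of_le_ne h.cZ hC (hTZ hB) hCB hne
      obtain ⟨e', he', -⟩ := dim_le_basis b h.cZ hC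
      rw [he, he'] at h1
      have h2 : e < e' := by exact_mod_cast h1
      have h3 := disc_ge_of_smooth b h.cZ hC (h.sm C hC) hE hCE he'
      have h4 : (c : ℚ) + 1 ≤ e' := by exact_mod_cast (by omega : c + 1 ≤ e')
      linarith

end Flip28
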