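import Pool.Agent.FlipN_h28.Def

/-! # Infinite sequences of flips of terminal varieties -/

open scoped KaehlerDifferential

set_option linter.unusedSectionVars false

universe u

namespace Flip28

variable {k K : Type u} [Field k] [Field K] [Algebra k K] [CharZero k]
  [Algebra.EssFiniteType k K] {n : ℕ} (b : Module.Basis (Fin n) K Ω[K⁄k])
  {X Y : ℕ → Set (Subalgebra k K)}

/-- the standing assumptions -/
structure SetupN (c : ℕ) (X Y : ℕ → Set (Subalgebra k K)) : Prop where
  hc : 2 ≤ c
  hX : IsCompleteNormal (X 0)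
  hP : ∀ i, IsProj (X i)
  hf : ∀ i, IsFlip b (X i) (Y i) (X (i + 1))
  hT : ∀ i, Term b c (X i)
  hR : ∀ i, HasRes (X i)

end Flip28
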