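import Pool.Agent.FlipN_h28.NE0
import Pool.Agent.FlipN_h28.ND2

/-! # First properties -/

open scoped KaehlerDifferential

set_option linter.unusedSectionVars false

universe u

namespace Flip28

variable {k K : Type u} [Field k] [Field K] [Algebra k K] [CharZero k]
  [Algebra.EssFiniteType k K] {n : ℕ} {b : Module.Basis (Fin n) K Ω[K⁄k]}
  {X Y : ℕ → Set (Subalgebra k K)} {c : ℕ}

theorem SetupN.cn (h : SetupN b c X Y) (i : ℕ) : IsCompleteNormal (X i) :=
  cn_of_flips b h.hX h.hf i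

/-- Proof: `HasRes`; generators: `(h.hf i).neg`, `VeryAmple` (each point of `X i` dominates a point
of `Y i`), `IsGen.inv`. -/
theorem SetupN.exists_res (h : SetupN b c X Y) (i : ℕ) : ∃ Z, ResSit b c (X i) Z := by
  obtain ⟨Z, hZ, -, hsm, hdown, hiso⟩ := h.hR i
  refine ⟨Z, h.hc, h.cn i, hZ, hsm, hdown, hiso, fun A hA => ?_, h.hT i⟩
  obtain ⟨m, hm, hva⟩ := (h.hf i).neg
  obtain ⟨y, hy, hyA⟩ := (h.hf i).down A hA
  obtain ⟨g, -, hg, -⟩ := hva A hA y hy hyA
  refine ⟨m, hm, g⁻¹, ?_⟩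
  have h1 := hg.inv b
  rwa [neg_neg] at h1

/-- The prime divisors are stable from some step on.  Proof: as in `flips_good`
(`stage_gen`, `finite_removal` with `d = 0 + 1`, `p = n - 1`, `dvr_up`). -/
theorem SetupN.stable_one (h : SetupN b c X Y) : ∃ i1, ∀ i, i1 ≤ i → ∀ A : Subalgebra k K,
    ringKrullDim A ≤ ((1 : ℕ) : WithBot ℕ∞) → (A ∈ X i ↔ A ∈ X (i + 1)) := by
  have hn2 := two_le_of_flip b h.hX (h.hf 0)
  have hback : ∀ i, ∀ A ∈ X (i + 1), ringKrullDim A ≤ ((0 + 1 : ℕ) : WithBot ℕ∞) → A ∈ X i := by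
    intro i A hA hd
    obtain ⟨e, he, -⟩ := dim_le_basis b (h.cn (i + 1)) hA
    rw [he] at hd
    have h6 : e ≤ 0 + 1 := by exact_mod_cast hd
    rcases Nat.eq_zero_or_pos e with h7 | h7
    · refine (stable_zero b h.cn i A ?_).2 hA
      rw [he]
      exact_mod_cast h7.le
    · have h8 : e = 1 := by omega
      subst h8
      have h9 : IsDVR A := ((h.cn (i + 1)).isDVR_iff hA).2 (by simpa using he)
      exact dvr_up (h.cn i) (h.hf i).mY (h.hf i).down ((h.hf i).small' A hA h9) h9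
  have hc := h.hc
  obtain ⟨i1, -, hi1⟩ := stage_gen b h.cn (d := 0) (i0 := 0)
    (fun i _ A hd => stable_zero b h.cn i A hd) (fun i _ A hA hd => hback i A hA hd)
    (finite_removal b 0 (fun i _ => h.cn i) (fun i _ => h.hP i) (p := n - 1) (d := 0 + 1)
      (by omega) (by omega) (fun i _ A hA hd => hback i A hA hd)
      (fun A hA hd => (h.hT 0).smooth A hA
        (hd.trans (by exact_mod_cast (by omega : 0 + 1 ≤ c)))))
  refine ⟨i1, fun i hi A hd => hi1 i hi A ?_⟩
  rw [zero_add]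
  exact hd

/-- Let the points of dimension at most `d` be stable from `i0` on.  A prime divisor `E` over a
flipped point `F`, `a(E, X i0) < d`, has singular centre on `X i0` and on `X i`.
Proof: if the centre `A` is smooth, `dim A - 1 ≤ a(E, X i0) < d` (`disc_ge_of_smooth`), so
`dim A ≤ d` and `A ∈ X (i + 1)`, `A = F` by uniqueness, `F ∈ X i` (`stable_persist`). -/
theorem SetupN.centre_singular (h : SetupN b c X Y) {d i0 : ℕ}
    (hst : ∀ i, i0 ≤ i → ∀ A : Subalgebra k K, ringKrullDim A ≤ d → (A ∈ X i ↔ A ∈ X (i + 1)))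
    {i : ℕ} (hi : i0 ≤ i) {F E A : Subalgebra k K} (hF : F ∈ X (i + 1)) (hF' : F ∉ X i)
    (hE : IsPrimeDiv E) (hFE : Dom F E) (hlt : disc b (X i0) E < d) (hA : A ∈ X i0)
    (hAE : Dom A E) : ¬ Algebra.FormallySmooth k A := by
  intro hs
  obtain ⟨e, he, -⟩ := dim_le_basis b (h.cn i0) hA
  have h1 := disc_ge_of_smooth b (h.cn i0) hA hs hE hAE he
  have h2 : (e : ℚ) < d + 1 := by linarith
  have h3 : e < d + 1 := by exact_mod_cast h2
  have hd : ringKrullDim A ≤ d := by
    rw [he]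
    exact_mod_cast (by omega : e ≤ d)
  have h4 : A ∈ X (i + 1) := (stable_persist hst hd le_rfl (by omega)).1 hA
  have h5 : A = F := (h.cn (i + 1)).unique h4 hF hE.1.isVal.isLocalRing hAE hFE
  exact hF' (h5 ▸ (stable_persist hst hd le_rfl hi).1 hA)

end Flip28
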