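import Pool.Agent.FlipN_h28.NE1

/-! # Stability in codimension at most c -/

open scoped KaehlerDifferential

set_option linter.unusedSectionVars false

universe u

namespace Flip28

variable {k K : Type u} [Field k] [Field K] [Algebra k K] [CharZero k]
  [Algebra.EssFiniteType k K] {n : ℕ} {b : Module.Basis (Fin n) K Ω[K⁄k]}
  {X Y : ℕ → Set (Subalgebra k K)} {c : ℕ}

/-- The points of dimension at most `c` are stable from some step on.
Proof: induction on `d ≤ c`, `1 ≤ d`, `d < n`, with `stage_step`, starting with `stable_one`.  Step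
`d → d + 1 ≤ c`: a flipped point `F ∈ X (i + 1)`, `i ≥ i0`, `dim F = d + 1`, is smooth;
`exists_blow_flip` gives `E` with `a(E, X i) < d ≤ a(E, X (i + 1))`; `E` is in the finite set
`ResSit.finite_bad` for `X i0` by `centre_singular` and `d ≤ c - 1`; `finite_pass` with `a = d`.
`c < n`: otherwise the points of dimension at most `n - 1` are stable and `n_ge_of_stable` gives
`2 (n - 1) + 1 ≤ n`, `n ≤ 1`, contrary to `two_le_of_flip`. -/
theorem SetupN.stable_c (h : SetupN b c X Y) : c < n ∧ ∃ i1, ∀ i, i1 ≤ i →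
    ∀ A : Subalgebra k K, ringKrullDim A ≤ c → (A ∈ X i ↔ A ∈ X (i + 1)) := by
  have hn2 := two_le_of_flip b h.hX (h.hf 0)
  have key : ∀ d : ℕ, 1 ≤ d → d ≤ c → d < n → ∃ i1, ∀ i, i1 ≤ i → ∀ A : Subalgebra k K,
      ringKrullDim A ≤ d → (A ∈ X i ↔ A ∈ X (i + 1)) := by
    intro d hd1
    induction d, hd1 using Nat.le_induction with
    | base => exact fun _ _ => h.stable_one
    | succ d hd1 ih =>
      intro hdc hdn
      obtain ⟨i0, hi0⟩ := ih (by omega) (by omega)
      obtain ⟨Z, hZ⟩ := h.exists_res i0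
      obtain ⟨i1, -, hi1⟩ := stage_step b h.cn h.hP (d := d) hdn i0 hi0
        (fun i _ A hA hd => (h.hT i).smooth A hA (hd.trans (by exact_mod_cast hdc)))
        (by
          refine finite_pass b h.cn h.hf hZ.finite_bad (a := (d : ℚ)) ?_
          rintro i ⟨hi, F, hF, hF', hd⟩
          have hs := (h.hT (i + 1)).smooth F hF (by
            rw [hd]
            exact_mod_cast hdc)
          obtain ⟨E, hE, hFE, hE1, hE2⟩ := exists_blow_flip b h.cn h.hf hF hF' hs hd
          have h7 : (((d + 1 : ℕ) : ℚ)) - 1 = d := by push_cast; ring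
          rw [h7] at hE1 hE2
          have hlt : disc b (X i0) E < d :=
            lt_of_le_of_lt (disc_mono_flips b h.cn h.hf hE i hi) hE2
          have h8 : (d : ℚ) + 1 ≤ c := by exact_mod_cast hdc
          obtain ⟨A, hA, hAE⟩ := (h.cn i0).exists_centre hE.1.isVal
          refine ⟨E, ⟨hE, ⟨A, hA, hAE, ?_⟩, by linarith⟩, hE, hE2, hE1.ge⟩
          exact h.centre_singular hi0 hi hF hF' hE hFE hlt hA hAE)
      exact ⟨i1, hi1⟩
  have hcn : c < n := by
    by_contra hcon
    obtain ⟨i0, hi0⟩ := key (n - 1) (by omega) (by omega) (by omega)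
    have h1 := n_ge_of_stable b h.cn h.hf (i0 := i0) (d := n - 1) (d' := n - 1) (by omega) hi0
      (fun i hi A hA hd => (hi0 i hi A hd).2 hA)
    omega
  exact ⟨hcn, key c (by have := h.hc; omega) le_rfl hcn⟩

end Flip28
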