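import Pool.Agent.FlipN_h28.NE1

/-! # Flips creating singular points -/

open scoped KaehlerDifferential

set_option linter.unusedSectionVars false

universe u

namespace Flip28

variable {k K : Type u} [Field k] [Field K] [Algebra k K] [CharZero k]
  [Algebra.EssFiniteType k K] {n : ℕ} {b : Module.Basis (Fin n) K Ω[K⁄k]}
  {X Y : ℕ → Set (Subalgebra k K)} {c : ℕ}

theorem NE3_mono (h : SetupN b c X Y) {E : Subalgebra k K} (hE : IsPrimeDiv E) {i j : ℕ}
    (hij : i ≤ j) : disc b (X i) E ≤ disc b (X j) E := by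
  induction hij with
  | refl => exact le_rfl
  | step _ ih => exact ih.trans (disc_le b (h.cn _) (h.hf _) hE)

theorem NE3_lt (h : SetupN b c X Y) {E F : Subalgebra k K} (hE : IsPrimeDiv E) {i : ℕ}
    (hF : F ∈ X (i + 1)) (hF' : F ∉ X i) (hFE : Dom F E) :
    disc b (X i) E < disc b (X (i + 1)) E := by
  obtain ⟨A, hA, hdA⟩ := (h.cn i).exists_centre hE.1.isVal
  refine disc_lt b (h.cn i) (h.hf i) hE hA hF hdA hFE ?_
  rintro rfl
  exact hF' hA

/-- Only finitely many flips create singular points of dimension `c + 1`.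
Proof: for such an `i ≥ i0` and `F`, `hM` gives `E` with `a(E, X (i + 1)) ∈ Δ`,
`a(E, X i) < a(E, X (i + 1)) ≤ c - 1` (`disc_lt`), so `E` is in the finite set
`ResSit.finite_bad` for `X i0` (`centre_singular` with `d = c`).  If there were infinitely many
such `i`, infinitely many would have the same `E`; along them the discrepancies `a(E, X (i + 1))`
are strictly increasing elements of `Δ`, contrary to `hacc`
(`Nat.orderEmbeddingOfSet`). -/
theorem SetupN.finite_sing (h : SetupN b c X Y) {Δ : Set ℚ} (hΔ : ∀ a ∈ Δ, a ≤ (c : ℚ) - 1)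
    (hacc : ∀ f : ℕ → ℚ, StrictMono f → ∃ i, f i ∉ Δ)
    (hM : ∀ i, ∀ F ∈ X (i + 1), F ∉ X i → ringKrullDim F = ((c + 1 : ℕ) : WithBot ℕ∞) →
      ¬ Algebra.FormallySmooth k F → ∃ E, IsPrimeDiv E ∧ Dom F E ∧ disc b (X (i + 1)) E ∈ Δ)
    {i0 : ℕ} (hst : ∀ i, i0 ≤ i → ∀ A : Subalgebra k K, ringKrullDim A ≤ c →
      (A ∈ X i ↔ A ∈ X (i + 1))) :
    {i | i0 ≤ i ∧ ∃ F ∈ X (i + 1), F ∉ X i ∧ ringKrullDim F = ((c + 1 : ℕ) : WithBot ℕ∞) ∧
      ¬ Algebra.FormallySmooth k F}.Finite := by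
  classical
  obtain ⟨Z, hZ⟩ := h.exists_res i0
  have hB := hZ.finite_bad
  set B : Set (Subalgebra k K) := {E | IsPrimeDiv E ∧
    (∃ A ∈ X i0, Dom A E ∧ ¬ Algebra.FormallySmooth k A) ∧
      disc b (X i0) E < (c : ℚ) - 1} with hBdef
  set T : Subalgebra k K → Set ℕ := fun E =>
    {i | i0 ≤ i ∧ ∃ F ∈ X (i + 1), F ∉ X i ∧ Dom F E ∧ disc b (X (i + 1)) E ∈ Δ} with hT
  -- every such index belongs to one of the sets `T E`
  have hsub : {i | i0 ≤ i ∧ ∃ F ∈ X (i + 1), F ∉ X i ∧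
      ringKrullDim F = ((c + 1 : ℕ) : WithBot ℕ∞) ∧ ¬ Algebra.FormallySmooth k F} ⊆
      ⋃ E ∈ B, T E := by
    rintro i ⟨hi, F, hF, hF', hdim, hs⟩
    obtain ⟨E, hE, hFE, hΔE⟩ := hM i F hF hF' hdim hs
    have h1 := NE3_lt h hE hF hF' hFE
    have h2 := hΔ _ hΔE
    have h3 := NE3_mono h hE hi
    obtain ⟨A, hA, hdA⟩ := (h.cn i0).exists_centre hE.1.isVal
    have h4 : disc b (X i0) E < (c : ℚ) - 1 := by linarith
    have h5 : ¬ Algebra.FormallySmooth k A :=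
      h.centre_singular (d := c) hst hi hF hF' hE hFE (by linarith) hA hdA
    simp only [Set.mem_iUnion]
    exact ⟨E, ⟨hE, ⟨A, hA, hdA, h5⟩, h4⟩, hi, F, hF, hF', hFE, hΔE⟩
  refine Set.Finite.subset (Set.Finite.biUnion hB fun E hE => ?_) hsub
  by_contra hinf
  have hinf' : (T E).Infinite := hinf
  haveI : Infinite (T E) := hinf'.to_subtype
  let φ : ℕ ↪o ℕ := Nat.orderEmbeddingOfSet (T E)
  have hφ : ∀ j, φ j ∈ T E := fun j => by
    have h1 : φ j ∈ Set.range φ := ⟨j, rfl⟩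
    rwa [Nat.orderEmbeddingOfSet_range] at h1
  have hE1 : IsPrimeDiv E := hE.1
  obtain ⟨j, hj⟩ := hacc (fun j => disc b (X (φ j + 1)) E) (by
    refine strictMono_nat_of_lt_succ fun j => ?_
    have h1 : φ j < φ (j + 1) := φ.lt_iff_lt.2 (Nat.lt_succ_self j)
    obtain ⟨-, F, hF, hF', hFE, -⟩ := hφ (j + 1)
    exact lt_of_le_of_lt (NE3_mono h hE1 (Nat.succ_le_of_lt h1)) (NE3_lt h hE1 hF hF' hFE))
  obtain ⟨-, F, -, -, -, h2⟩ := hφ j
  exact hj h2

end Flip28
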