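import Pool.Agent.FlipN_h28.NE1
import Pool.Agent.FlipN_h28.ND3

/-! # Flips creating smooth points -/

open scoped KaehlerDifferential

set_option linter.unusedSectionVars false

universe u

namespace Flip28

variable {k K : Type u} [Field k] [Field K] [Algebra k K] [CharZero k]
  [Algebra.EssFiniteType k K] {n : ℕ} {b : Module.Basis (Fin n) K Ω[K⁄k]}
  {X Y : ℕ → Set (Subalgebra k K)} {c : ℕ}

/-- Prime divisors `V` which are bad for all large `i`: either almost all flips do not touch the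
closure of the centre of `V`, or there are forms of small order along `V` which are regular at the
flipped points. -/
def HypS (b : Module.Basis (Fin n) K Ω[K⁄k]) (c : ℕ) (X : ℕ → Set (Subalgebra k K)) : Prop :=
  ∀ V, IsPrimeDiv V →
    (∃ j, ∀ i, j ≤ i → (c : ℚ) - 2 < disc b (X i) V ∧ disc b (X i) V < (c : ℚ) - 1) →
    (∀ j, ∃ i, j ≤ i ∧ ∃ A ∈ X i, A ∉ X (i + 1) ∧ A ≤ V) →
    ∃ (S : Finset (ℤ × K)) (j : ℕ),
      (∀ q ∈ S, 0 < q.1 ∧ q.2 ≠ 0 ∧ (kord b q.1 V q.2 : ℚ) < ((c : ℚ) - 1) * q.1) ∧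
      ∀ i, j ≤ i → ∀ F ∈ X (i + 1), F ∉ X i → ringKrullDim F = ((c + 1 : ℕ) : WithBot ℕ∞) →
        Algebra.FormallySmooth k F → ∃ q ∈ S, q.2 ∈ Sec b (X (i + 1)) q.1 F

/-- a property which holds eventually holds from a common step on for a finite set -/
theorem NE4_common {α : Type*} {𝒱 : Set α} (hfin : 𝒱.Finite) (p : α → ℕ → Prop)
    (hmono : ∀ V i j, i ≤ j → p V i → p V j) (hex : ∀ V ∈ 𝒱, ∃ j, p V j) (i0 : ℕ) :
    ∃ i1, i0 ≤ i1 ∧ ∀ V ∈ 𝒱, p V i1 := by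
  classical
  choose! f hf using hex
  refine ⟨max i0 (hfin.toFinset.sup f), le_max_left _ _, fun V hV => ?_⟩
  refine hmono V (f V) _ (le_trans ?_ (le_max_right _ _)) (hf V hV)
  exact Finset.le_sup (f := f) (hfin.mem_toFinset.2 hV)

/-- Only finitely many flips create smooth points of dimension `c + 1`.

Proof.  Let `𝒱` be the finite set `ResSit.finite_bad` for `X i0` (`exists_res`).  Choose `i1 ≥ i0`
such that for every `V ∈ 𝒱`: (a) if `a(V, X i) ≥ c - 1` for some `i` then `a(V, X i1) ≥ c - 1`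
(`disc_mono_flips`); (b) if it is not true that for all `j` there is `i ≥ j` and `A ∈ X i`,
`A ∉ X (i + 1)`, `A ≤ V`, then there are no such `A` for `i ≥ i1`.

Let `Z` be a resolution of `X i1` (`exists_res`) and `P ∈ Z`, `P ∉ X i1` a DVR with
`a(P, X i1) < c - 1`.  Then (c) `P ∈ 𝒱`: the centre `A` of `P` on `X i0` is singular, because
otherwise `dim A - 1 ≤ a(P, X i0) ≤ a(P, X i1) < c - 1` (`disc_ge_of_smooth`), so `dim A < c`,
`A ∈ X i1` (`stable_persist`), `A ∈ Z` by `ResSit.iso`, so `A = P` by uniqueness of centres on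
`Z` (both are dominated by `P`), but `P ∉ X i1`.  So `a(P, X i) < c - 1` for all `i` by (a) and
`c - 2 < a(P, X i)` for all `i ≥ i1` (`disc_exc`, monotonicity).  If the closure of the centre of
`P` is touched infinitely often, `hS P` gives `S P` and `j P`; otherwise (and for all other
subalgebras) put `S P = ∅`, `j P = 0`.  Let `i2 ≥ i1` be larger than all `j P`, `P ∈ 𝒱`, and `ℰ`
the finite set of `ResSit.finite_or` for `X i1`, `Z`, `S`.

Let `i ≥ i2`, `F ∈ X (i + 1)` a smooth flipped point, `dim F = c + 1`, and `E` its blow up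
(`exists_blow_flip`): `a(E, X (i + 1)) = c`, `a(E, X i) < c`, so `a(E, X i1) < c`.  The centre `A`
of `E` on `X i1` is singular (`centre_singular` with `d = c`).  Suppose `E ∉ ℰ`.  Then there is
`P` as above with `A ≤ P` and `kord q.1 E q.2 = kord q.1 P q.2 + q.1` for `q ∈ S P`.  If `P` is
touched infinitely often, there is `q ∈ S P` with `q.2` regular at `F`, so by `kord_ge` (on
`X (i + 1)`, at `F`) `q.1 * c ≤ kord q.1 E q.2 = kord q.1 P q.2 + q.1 < (c - 1) q.1 + q.1`, a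
contradiction.  Otherwise, by (b), `A ∈ X j` for all `j ≥ i1` (induction), so `A ∈ X (i + 1)`,
`A = F` by uniqueness of centres, and `F ∈ X i`, a contradiction.  So `E ∈ ℰ`, and `finite_pass`
with `a = c` shows that there are only finitely many such `i ≥ i2`; the `i < i2` are finitely
many. -/
theorem SetupN.finite_smooth (h : SetupN b c X Y) (hS : HypS b c X)
    {i0 : ℕ} (hst : ∀ i, i0 ≤ i → ∀ A : Subalgebra k K, ringKrullDim A ≤ c →
      (A ∈ X i ↔ A ∈ X (i + 1))) :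
    {i | i0 ≤ i ∧ ∃ F ∈ X (i + 1), F ∉ X i ∧ ringKrullDim F = ((c + 1 : ℕ) : WithBot ℕ∞) ∧
      Algebra.FormallySmooth k F}.Finite := by
  classical
  obtain ⟨Z0, hZ0⟩ := h.exists_res i0
  have hbad := hZ0.finite_bad
  set 𝒱 : Set (Subalgebra k K) := {E | IsPrimeDiv E ∧
    (∃ A ∈ X i0, Dom A E ∧ ¬ Algebra.FormallySmooth k A) ∧
      disc b (X i0) E < (c : ℚ) - 1} with h𝒱
  -- the step `i1`
  obtain ⟨i1, hi01, hi1⟩ : ∃ i1, i0 ≤ i1 ∧ ∀ V ∈ 𝒱,
      (∀ i, (c : ℚ) - 1 ≤ disc b (X i) V → (c : ℚ) - 1 ≤ disc b (X i1) V) ∧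
      ((∀ j', ∃ i, j' ≤ i ∧ ∃ A ∈ X i, A ∉ X (i + 1) ∧ A ≤ V) ∨
        ∀ i, i1 ≤ i → ∀ A ∈ X i, A ≤ V → A ∈ X (i + 1)) := by
    refine NE4_common hbad
      (fun V j => (∀ i, (c : ℚ) - 1 ≤ disc b (X i) V → (c : ℚ) - 1 ≤ disc b (X j) V ∨
        ¬ IsPrimeDiv V) ∧
        ((∀ j', ∃ i, j' ≤ i ∧ ∃ A ∈ X i, A ∉ X (i + 1) ∧ A ≤ V) ∨
          ∀ i, j ≤ i → ∀ A ∈ X i, A ≤ V → A ∈ X (i + 1))) ?_ ?_ i0 |>.imp ?_
    · intro V i j hij hp
      refine ⟨fun l hl => ?_, hp.2.imp id fun h1 l hl => h1 l (hij.trans hl)⟩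
      by_cases hV : IsPrimeDiv V
      · exact ((hp.1 l hl).imp (fun h1 => h1.trans (disc_mono_flips b h.cn h.hf hV j hij)) id)
      · exact Or.inr hV
    · intro V hV
      have h1 : ∃ j1, ∀ i, (c : ℚ) - 1 ≤ disc b (X i) V → (c : ℚ) - 1 ≤ disc b (X j1) V := by
        by_cases h2 : ∃ i, (c : ℚ) - 1 ≤ disc b (X i) V
        · obtain ⟨i, hi⟩ := h2
          exact ⟨i, fun _ _ => hi⟩
        · exact ⟨0, fun i hi => absurd ⟨i, hi⟩ h2⟩
      obtain ⟨j1, hj1⟩ := h1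
      by_cases h3 : ∀ j', ∃ i, j' ≤ i ∧ ∃ A ∈ X i, A ∉ X (i + 1) ∧ A ≤ V
      · exact ⟨j1, fun i hi => Or.inl (hj1 i hi), Or.inl h3⟩
      · push Not at h3
        obtain ⟨j2, hj2⟩ := h3
        refine ⟨max j1 j2, fun i hi => Or.inl ((hj1 i hi).trans
          (disc_mono_flips b h.cn h.hf hV.1 _ (le_max_left _ _))), Or.inr fun i hi A hA hAV => ?_⟩
        by_contra hcon
        exact hj2 i (le_trans (le_max_right _ _) hi) A hA hcon hAV
    · rintro i1 ⟨hi1, h1⟩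
      refine ⟨hi1, fun V hV => ⟨fun i hi => ?_, (h1 V hV).2⟩⟩
      rcases (h1 V hV).1 i hi with h2 | h2
      · exact h2
      · exact absurd hV.1 h2
  -- (c)
  obtain ⟨Z, hZ⟩ := h.exists_res i1
  have hc' : ∀ P ∈ Z, IsDVR P → P ∉ X i1 → disc b (X i1) P < (c : ℚ) - 1 → P ∈ 𝒱 := by
    intro P hP hPd hPX hlt
    have hPp : IsPrimeDiv P := hZ.cZ.isPrimeDiv hP hPd
    have hmono := disc_mono_flips b h.cn h.hf hPp (i := i0) i1 hi01
    refine ⟨hPp, ?_, lt_of_le_of_lt hmono hlt⟩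
    obtain ⟨A, hA, hAP⟩ := (h.cn i0).exists_centre hPd.isVal
    refine ⟨A, hA, hAP, fun hs => hPX ?_⟩
    obtain ⟨e, he, -⟩ := dim_le_basis b (h.cn i0) hA
    have h1 := disc_ge_of_smooth b (h.cn i0) hA hs hPp hAP he
    have h2 : (e : ℚ) < c := by linarith
    have h3 : e < c := by exact_mod_cast h2
    have h4 : A ∈ X i1 := (stable_persist hst (by rw [he]; exact_mod_cast h3.le) le_rfl hi01).1 hA
    have h5 : A = P := hZ.cZ.unique (hZ.iso A h4 hs) hP (hZ.cZ.isLocalRing hP) hAP (Dom.refl P)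
    exact h5 ▸ h4
  -- the forms
  have hSj : ∀ P : Subalgebra k K, ∃ (S : Finset (ℤ × K)) (j : ℕ),
      (∀ q ∈ S, 0 < q.1 ∧ q.2 ≠ 0 ∧ (kord b q.1 P q.2 : ℚ) < ((c : ℚ) - 1) * q.1) ∧
      (P ∈ Z → IsDVR P → P ∉ X i1 → disc b (X i1) P < (c : ℚ) - 1 →
        (∀ j', ∃ i, j' ≤ i ∧ ∃ A ∈ X i, A ∉ X (i + 1) ∧ A ≤ P) →
        ∀ i, j ≤ i → ∀ F ∈ X (i + 1), F ∉ X i →
          ringKrullDim F = ((c + 1 : ℕ) : WithBot ℕ∞) →
          Algebra.FormallySmooth k F → ∃ q ∈ S, q.2 ∈ Sec b (X (i + 1)) q.1 F) := by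
    intro P
    by_cases hP : P ∈ Z ∧ IsDVR P ∧ P ∉ X i1 ∧ disc b (X i1) P < (c : ℚ) - 1 ∧
        ∀ j', ∃ i, j' ≤ i ∧ ∃ A ∈ X i, A ∉ X (i + 1) ∧ A ≤ P
    · obtain ⟨hP, hPd, hPX, hlt, htouch⟩ := hP
      have hPp : IsPrimeDiv P := hZ.cZ.isPrimeDiv hP hPd
      have hdis : ∀ i, i1 ≤ i → (c : ℚ) - 2 < disc b (X i) P ∧ disc b (X i) P < (c : ℚ) - 1 := by
        intro i hi
        refine ⟨lt_of_lt_of_le (hZ.disc_exc hP hPd hPX)
          (disc_mono_flips b h.cn h.hf hPp i hi), ?_⟩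
        by_contra hcon
        exact absurd ((hi1 P (hc' P hP hPd hPX hlt)).1 i (not_lt.1 hcon)) (not_le.2 hlt)
      obtain ⟨S, j, h1, h2⟩ := hS P hPp ⟨i1, hdis⟩ htouch
      exact ⟨S, j, h1, fun _ _ _ _ _ => h2⟩
    · refine ⟨∅, 0, fun q hq => absurd hq (Finset.notMem_empty q), fun h1 h2 h3 h4 h5 => ?_⟩
      exact absurd ⟨h1, h2, h3, h4, h5⟩ hP
  choose S J hS1 hS2 using hSj
  obtain ⟨ℰ, hℰ, hor⟩ := hZ.finite_or S (fun P q hq => (hS1 P q hq).2.1)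
  obtain ⟨i2, hi12, hi2⟩ := NE4_common hbad (fun V j => J V ≤ j)
    (fun V i j hij hp => le_trans hp hij) (fun V _ => ⟨J V, le_rfl⟩) i1
  -- the steps after `i2`
  have hT : {i | i2 ≤ i ∧ ∃ F ∈ X (i + 1), F ∉ X i ∧
      ringKrullDim F = ((c + 1 : ℕ) : WithBot ℕ∞) ∧ Algebra.FormallySmooth k F}.Finite := by
    refine finite_pass b h.cn h.hf hℰ (a := (c : ℚ)) ?_
    rintro i ⟨hi, F, hF, hF', hd, hs⟩
    obtain ⟨E, hE, hFE, hE1, hE2⟩ := exists_blow_flip b h.cn h.hf hF hF' hs hd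
    have h7 : (((c + 1 : ℕ) : ℚ)) - 1 = c := by push_cast; ring
    rw [h7] at hE1 hE2
    refine ⟨E, ?_, hE, hE2, hE1.ge⟩
    have hi1i : i1 ≤ i := hi12.trans hi
    obtain ⟨A, hA, hAE⟩ := (h.cn i1).exists_centre hE.1.isVal
    have hlt1 : disc b (X i1) E < c :=
      lt_of_le_of_lt (disc_mono_flips b h.cn h.hf hE i hi1i) hE2
    have hAs : ¬ Algebra.FormallySmooth k A :=
      h.centre_singular (fun i hi => hst i (hi01.trans hi)) hi1i hF hF' hE hFE hlt1 hA hAE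
    rcases hor E hE A hA hAE hAs hlt1 with hE' | ⟨P, hP, hPd, hPX, hPlt, hAP, hq⟩
    · exact hE'
    exfalso
    have hPV := hc' P hP hPd hPX hPlt
    rcases (hi1 P hPV).2 with htouch | hno
    · obtain ⟨q, hqS, hqF⟩ := hS2 P hP hPd hPX hPlt htouch i ((hi2 P hPV).trans hi) F hF hF' hd hs
      obtain ⟨hq0, hq1, hq2⟩ := hS1 P q hqS
      have h8 := kord_ge b (h.cn (i + 1)) hF hs hE hFE hq1
        (fun Q hQ hQd hFQ => hqF hq1 Q hQ hQd hFQ)
      rw [hE1, hq q hqS] at h8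
      push_cast at h8
      linarith
    · have h9 : ∀ j, i1 ≤ j → A ∈ X j := by
        intro j hj
        induction j, hj using Nat.le_induction with
        | base => exact hA
        | succ j hj ih => exact hno j hj A ih hAP
      have h10 : A = F := (h.cn (i + 1)).unique (h9 (i + 1) (by omega)) hF
        hE.1.isVal.isLocalRing hAE hFE
      exact hF' (h10 ▸ h9 i hi1i)
  refine ((Set.finite_lt_nat i2).union hT).subset ?_
  rintro i ⟨hi, F, hF⟩
  rcases Nat.lt_or_ge i i2 with h1 | h1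
  · exact Or.inl h1
  · exact Or.inr ⟨h1, F, hF⟩

end Flip28
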